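import Pool.Agent.L7h88.MW.Stm
import Pool.Agent.N798.H.PL2

/-! # Project MW, part MVT: the mean value theorem for Dirichlet polynomials -/

set_option autoImplicit false

namespace Pool.Agent.L7h88.MW

open Finset MeasureTheory Filter FourierTransform
open scoped ENNReal
open Pool.Agent.H376R2.MR (er)
open Pool.Agent.Y957.AD (four_shift memLp_of_bdd er_norm er_zero)
open Pool.Agent.Y957.VK (four_fsum four_smulc ton enorm_sq_le)
open Pool.Agent.N499.T (four_eq H_int)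
open Pool.Agent.N798.HS (Ek Ek_norm Ek_le Ek_int Ek_lint Ek_four pt)

/-- scaling -/
theorem lint_scale (f : ℝ → ℝ≥0∞) (hf : Measurable f) {a : ℝ} (ha : a ≠ 0) :
    ∫⁻ x, f (a * x) = ENNReal.ofReal |a⁻¹| * ∫⁻ x, f x := by
  have h1 := Real.map_volume_mul_left ha
  have h2 : ∫⁻ x, f x ∂(Measure.map (fun x => a * x) volume) = ∫⁻ x, f (a * x) :=
    lintegral_map hf (measurable_const_mul a)
  rw [← h2]
  rw [show (fun x => a * x) = (a * ·) from rfl, h1, lintegral_smul_measure, smul_eq_mul]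

/-- Plancherel for a combination of translates -/
theorem keyP (s : Finset ℕ) (g : ℕ → ℂ) (F : ℝ → ℂ) (hF : Integrable F) (B : ℝ) (hB : ∀ y, ‖F y‖ ≤ B) (s0 : ℝ) :
    ∫⁻ u, ‖∑ n ∈ s, g n * F (u + (s0 + Real.log n))‖ₑ ^ 2 =
      ∫⁻ ξ, ‖∑ n ∈ s, g n * er (2 * Real.pi * ξ) (s0 + Real.log n)‖ₑ ^ 2 * ‖𝓕 F ξ‖ₑ ^ 2 := by
  have hFi : Integrable (fun u => ∑ n ∈ s, g n * F (u + (s0 + Real.log n))) :=
    integrable_finsetSum _ fun n _ => (hF.comp_add_right _).const_mul _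
  have hFb : ∀ u, ‖∑ n ∈ s, g n * F (u + (s0 + Real.log n))‖ ≤ ∑ n ∈ s, ‖g n‖ * B := by
    intro u
    refine (norm_sum_le _ _).trans (Finset.sum_le_sum fun n _ => ?_)
    rw [norm_mul]
    exact mul_le_mul_of_nonneg_left (hB _) (norm_nonneg _)
  rw [← Pool.Agent.TH794.QD.plancherel _ hFi (memLp_of_bdd hFi hFb)]
  refine lintegral_congr fun ξ => ?_
  have h2 : 𝓕 (fun u => ∑ n ∈ s, g n * F (u + (s0 + Real.log n))) ξ =
      (∑ n ∈ s, g n * er (2 * Real.pi * ξ) (s0 + Real.log n)) * 𝓕 F ξ := by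
    rw [four_fsum _ _ fun n _ => (hF.comp_add_right _).const_mul _, Finset.sum_mul]
    refine Finset.sum_congr rfl fun n _ => ?_
    rw [four_smulc, four_shift]
    ring
  rw [h2, enorm_mul, mul_pow]

/-- the weighted mean value theorem -/
theorem wmv (s : Finset ℕ) (g : ℕ → ℂ) (M T : ℝ) (hs : ∀ n ∈ s, 1 ≤ n ∧ (n : ℝ) ≤ M) (hMT : M ≤ T) (hT : 1 ≤ T) (s0 : ℝ) :
    ∫⁻ ξ, ‖∑ n ∈ s, g n * er (2 * Real.pi * ξ) (s0 + Real.log n)‖ₑ ^ 2 *
        ENNReal.ofReal (1 / (T ^ 2 + (2 * Real.pi * ξ) ^ 2)) ≤ ENNReal.ofReal (2 / T * ∑ n ∈ s, ‖g n‖ ^ 2) := by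
  have hT0 : 0 < T := by linarith
  have e1 : ∀ ξ : ℝ, ENNReal.ofReal (1 / (T ^ 2 + (2 * Real.pi * ξ) ^ 2)) = ‖𝓕 (Ek T) ξ‖ₑ ^ 2 := by
    intro ξ
    rw [← Ek_four hT, ← ofReal_norm, ENNReal.ofReal_pow (norm_nonneg _)]
  simp only [e1]
  rw [← keyP s g (Ek T) (Ek_int hT) 1 (Ek_le hT) s0]
  have hpt : ∀ u, ‖∑ n ∈ s, g n * Ek T (u + (s0 + Real.log n))‖ₑ ^ 2 ≤
      2 * ∑ n ∈ s, ENNReal.ofReal (‖g n‖ ^ 2) * ‖Ek T (u + (s0 + Real.log n))‖ₑ := by
    intro u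
    have h2 : ∑ n ∈ s, ‖Ek T (u + (s0 + Real.log n))‖ ≤ 2 := by
      have := pt s M T hs hMT hT (u + s0)
      simpa only [add_assoc] using this
    have h3 : ‖∑ n ∈ s, g n * Ek T (u + (s0 + Real.log n))‖ ^ 2 ≤
        2 * ∑ n ∈ s, ‖g n‖ ^ 2 * ‖Ek T (u + (s0 + Real.log n))‖ := by
      have h1 : ‖∑ n ∈ s, g n * Ek T (u + (s0 + Real.log n))‖ ≤
          ∑ n ∈ s, (‖g n‖ * √‖Ek T (u + (s0 + Real.log n))‖) * √‖Ek T (u + (s0 + Real.log n))‖ := by
        refine (norm_sum_le _ _).trans (Finset.sum_le_sum fun n _ => ?_)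
        rw [norm_mul, mul_assoc, Real.mul_self_sqrt (norm_nonneg _)]
      have h4 := Finset.sum_mul_sq_le_sq_mul_sq s (fun n => ‖g n‖ * √‖Ek T (u + (s0 + Real.log n))‖)
        (fun n => √‖Ek T (u + (s0 + Real.log n))‖)
      have h5 : ‖∑ n ∈ s, g n * Ek T (u + (s0 + Real.log n))‖ ^ 2 ≤
          (∑ n ∈ s, (‖g n‖ * √‖Ek T (u + (s0 + Real.log n))‖) * √‖Ek T (u + (s0 + Real.log n))‖) ^ 2 :=
        pow_le_pow_left₀ (norm_nonneg _) h1 2
      refine h5.trans (h4.trans ?_)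
      have e2 : ∑ n ∈ s, √‖Ek T (u + (s0 + Real.log n))‖ ^ 2 = ∑ n ∈ s, ‖Ek T (u + (s0 + Real.log n))‖ :=
        Finset.sum_congr rfl fun n _ => Real.sq_sqrt (norm_nonneg _)
      have e3 : ∑ n ∈ s, (‖g n‖ * √‖Ek T (u + (s0 + Real.log n))‖) ^ 2 =
          ∑ n ∈ s, ‖g n‖ ^ 2 * ‖Ek T (u + (s0 + Real.log n))‖ :=
        Finset.sum_congr rfl fun n _ => by rw [mul_pow, Real.sq_sqrt (norm_nonneg _)]
      rw [e2, e3, mul_comm]
      exact mul_le_mul_of_nonneg_right h2 (Finset.sum_nonneg fun n _ => by positivity)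
    have h4 : (∑ n ∈ s, ENNReal.ofReal (‖g n‖ ^ 2) * ‖Ek T (u + (s0 + Real.log n))‖ₑ) =
        ENNReal.ofReal (∑ n ∈ s, ‖g n‖ ^ 2 * ‖Ek T (u + (s0 + Real.log n))‖) := by
      rw [ENNReal.ofReal_sum_of_nonneg fun _ _ => by positivity]
      refine Finset.sum_congr rfl fun n _ => ?_
      rw [ENNReal.ofReal_mul (by positivity), ofReal_norm]
    rw [← ofReal_norm, ← ENNReal.ofReal_pow (norm_nonneg _), h4,
      show (2 : ℝ≥0∞) = ENNReal.ofReal 2 by norm_num, ← ENNReal.ofReal_mul (by norm_num)]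
    exact ENNReal.ofReal_le_ofReal h3
  refine (lintegral_mono hpt).trans ?_
  have hm : Measurable (fun u => ‖Ek T u‖ₑ) := by
    have : Measurable (Ek T) := by
      unfold Ek
      exact (by fun_prop : Measurable fun x : ℝ => Complex.exp (-(T : ℂ) * x)).indicator measurableSet_Ioi
    exact this.enorm
  have hmn : ∀ n ∈ s, Measurable fun u => ENNReal.ofReal (‖g n‖ ^ 2) * ‖Ek T (u + (s0 + Real.log n))‖ₑ := fun n _ =>
    (hm.comp (measurable_add_const _)).const_mul _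
  rw [lintegral_const_mul' _ _ (by norm_num : (2 : ℝ≥0∞) ≠ ⊤), lintegral_finsetSum _ hmn]
  have h5 : ∀ n ∈ s, ∫⁻ u, ENNReal.ofReal (‖g n‖ ^ 2) * ‖Ek T (u + (s0 + Real.log n))‖ₑ =
      ENNReal.ofReal (‖g n‖ ^ 2 * (1 / T)) := by
    intro n _
    rw [lintegral_const_mul' _ _ ENNReal.ofReal_ne_top, lintegral_add_right_eq_self (fun u => ‖Ek T u‖ₑ), Ek_lint hT,
      ENNReal.ofReal_mul (by positivity)]
  rw [Finset.sum_congr rfl h5, ← ENNReal.ofReal_sum_of_nonneg fun _ _ => by positivity,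
    show (2 : ℝ≥0∞) = ENNReal.ofReal 2 by norm_num, ← ENNReal.ofReal_mul (by norm_num)]
  apply ENNReal.ofReal_le_ofReal
  rw [← Finset.sum_mul]
  apply le_of_eq
  ring

theorem DS_cont (f : ℕ → ℂ) (s : Finset ℕ) : Continuous (DS f s) := by
  unfold DS er
  fun_prop

theorem s_MVT : S_MVT := by
  refine ⟨8 * Real.pi, by nlinarith [Real.pi_gt_three], fun f s M x L hM hs hL => ?_⟩
  have hpi := Real.pi_pos
  set T : ℝ := L + M with hT
  have hT1 : 1 ≤ T := by linarith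
  have hT0 : 0 < T := by linarith
  set g : ℕ → ℂ := fun n => f n * er (-x) (Real.log n) with hg
  have hgn : ∀ n, ‖g n‖ = ‖f n‖ := fun n => by rw [hg]; simp only [norm_mul, er_norm, mul_one]
  have h0 := wmv s g M T hs (by linarith) hT1 0
  simp only [zero_add, hgn] at h0
  -- substitute
  set φ : ℝ → ℝ≥0∞ := fun v => ‖∑ n ∈ s, g n * er v (Real.log n)‖ₑ ^ 2 * ENNReal.ofReal (1 / (T ^ 2 + v ^ 2)) with hφ
  have hφm : Measurable φ := by
    have m1 : Measurable fun v : ℝ => ‖∑ n ∈ s, g n * er v (Real.log n)‖ₑ ^ 2 := by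
      refine Measurable.pow_const (Measurable.enorm ?_) 2
      unfold er
      fun_prop
    have m2 : Measurable fun v : ℝ => ENNReal.ofReal (1 / (T ^ 2 + v ^ 2)) := by fun_prop
    exact m1.mul m2
  have h1 : ∫⁻ v, φ v = ENNReal.ofReal (2 * Real.pi) * ∫⁻ ξ, φ (2 * Real.pi * ξ) := by
    rw [lint_scale φ hφm (by positivity : (2 * Real.pi : ℝ) ≠ 0), ← mul_assoc, ← ENNReal.ofReal_mul (by positivity),
      abs_of_nonneg (by positivity), mul_inv_cancel₀ (by positivity), ENNReal.ofReal_one, one_mul]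
  have h2 : ∫⁻ v, φ v ≤ ENNReal.ofReal (2 * Real.pi * (2 / T * ∑ n ∈ s, ‖f n‖ ^ 2)) := by
    rw [h1, ENNReal.ofReal_mul (p := 2 * Real.pi) (by positivity)]
    exact mul_le_mul' le_rfl h0
  -- the integral
  have hc : Continuous fun η => ‖DS f s η‖ ^ 2 := ((DS_cont f s).norm).pow 2
  have h3 : ENNReal.ofReal (∫ η in x..(x + L), ‖DS f s η‖ ^ 2) = ∫⁻ η in Set.Ioc x (x + L), ‖DS f s η‖ₑ ^ 2 := by
    rw [intervalIntegral.integral_of_le (by linarith), ofReal_integral_eq_lintegral_ofReal]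
    · refine lintegral_congr fun η => ?_
      rw [← ofReal_norm, ENNReal.ofReal_pow (norm_nonneg _)]
    · exact (hc.integrableOn_Icc).mono_set Set.Ioc_subset_Icc_self
    · exact Eventually.of_forall fun η => by positivity
  have h4 : ∀ η ∈ Set.Ioc x (x + L), ‖DS f s η‖ₑ ^ 2 ≤ ENNReal.ofReal (2 * T ^ 2) * φ (-(η - x)) := by
    intro η hη
    have e1 : DS f s η = ∑ n ∈ s, g n * er (-(η - x)) (Real.log n) := by
      unfold DS
      refine Finset.sum_congr rfl fun n _ => ?_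
      rw [hg]
      simp only
      rw [mul_assoc]
      congr 1
      unfold er
      rw [← Complex.exp_add]
      congr 1
      push_cast
      ring
    rw [hφ]
    simp only
    rw [e1]
    have h5 : ENNReal.ofReal (2 * T ^ 2) * ENNReal.ofReal (1 / (T ^ 2 + (-(η - x)) ^ 2)) ≥ 1 := by
      rw [← ENNReal.ofReal_mul (by positivity), ge_iff_le, ENNReal.one_le_ofReal, mul_one_div, le_div_iff₀ (by positivity)]
      have h6 : (-(η - x)) ^ 2 ≤ T ^ 2 := by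
        rw [neg_sq]
        exact pow_le_pow_left₀ (by linarith [hη.1]) (by linarith [hη.2]) 2
      linarith
    calc _ = ‖∑ n ∈ s, g n * er (-(η - x)) (Real.log n)‖ₑ ^ 2 * 1 := (mul_one _).symm
      _ ≤ _ * (ENNReal.ofReal (2 * T ^ 2) * ENNReal.ofReal (1 / (T ^ 2 + (-(η - x)) ^ 2))) := mul_le_mul' le_rfl h5
      _ = _ := by ring
  have h7 : ∫⁻ η in Set.Ioc x (x + L), ‖DS f s η‖ₑ ^ 2 ≤ ENNReal.ofReal (2 * T ^ 2) * ∫⁻ v, φ v := by
    refine (setLIntegral_mono' measurableSet_Ioc h4).trans ?_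
    refine (setLIntegral_le_lintegral _ _).trans ?_
    rw [lintegral_const_mul' _ _ ENNReal.ofReal_ne_top]
    refine mul_le_mul' le_rfl (le_of_eq ?_)
    have e2 : ∫⁻ η, φ (-(η - x)) = ∫⁻ η, φ (-η) := lintegral_sub_right_eq_self (fun η => φ (-η)) x
    rw [e2]
    exact lintegral_neg_eq_self φ
  have h8 : ENNReal.ofReal (∫ η in x..(x + L), ‖DS f s η‖ ^ 2) ≤
      ENNReal.ofReal (8 * Real.pi * (L + M) * ∑ n ∈ s, ‖f n‖ ^ 2) := by
    rw [h3]
    refine h7.trans ((mul_le_mul' le_rfl h2).trans ?_)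
    rw [← ENNReal.ofReal_mul (by positivity)]
    apply ENNReal.ofReal_le_ofReal
    apply le_of_eq
    rw [← hT]
    field_simp
    ring
  exact (ENNReal.ofReal_le_ofReal_iff (by
    have : 0 ≤ ∑ n ∈ s, ‖f n‖ ^ 2 := Finset.sum_nonneg fun _ _ => by positivity
    positivity)).1 h8

end Pool.Agent.L7h88.MW
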