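import Pool.Agent.L7h88.MW.FinA

/-! # Project MW: the totient application, final form -/

set_option autoImplicit false

namespace Pool.Agent.L7h88.MW

open Finset MeasureTheory Filter Topology
open Pool.Agent.N798.HS (Thin thin_mono)
open Pool.Agent.L7h88.TS (Kq)

open Classical in
/-- the `k` with `q = φ(k) + φ(n-k)/2 + 1` a prime for which the two other numbers are primes -/
noncomputable def AK (α : Fin 2 → ℝ) (b : Fin 2 → ℤ) (n : ℕ) : Finset ℕ :=
  (Ico 1 (n - 2)).filter fun k => (Nat.totient k + Nat.totient (n - k) / 2 + 1).Prime ∧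
    ∀ i, (⌊α i * ((pp (Nat.totient k + Nat.totient (n - k) / 2 + 1) - (Nat.totient k + Nat.totient (n - k) / 2 + 1) : ℕ) : ℝ)⌋ +
      b i).toNat.Prime

theorem AK_ge (α : Fin 2 → ℝ) (b : Fin 2 → ℤ) (n : ℕ) :
    ((Hq α b n).card : ℝ) * (√(n : ℝ) / Real.log n ^ 5) ≤ ((AK α b n).card : ℝ) := by
  classical
  have h1 : (Hq α b n).biUnion (fun q => Kq n q) ⊆ AK α b n := by
    intro k hk
    rw [mem_biUnion] at hk
    obtain ⟨q, hq, hk⟩ := hk
    unfold Kq at hk
    unfold Hq at hq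
    rw [mem_filter] at hk hq
    unfold AK
    rw [mem_filter]
    have h2 := (mem_Gq.1 hq.1).2.1
    refine ⟨hk.1, ?_, ?_⟩
    · rw [hk.2]; exact h2
    · rw [hk.2]; exact hq.2
  have h2 : ((Hq α b n).biUnion (fun q => Kq n q)).card = ∑ q ∈ Hq α b n, (Kq n q).card := by
    refine card_biUnion fun q _ q' _ hne => ?_
    rw [Function.onFun, disjoint_left]
    intro k hk hk'
    unfold Kq at hk hk'
    rw [mem_filter] at hk hk'
    exact hne (hk.2.symm.trans hk'.2)
  have h3 : (∑ q ∈ Hq α b n, (Kq n q).card) ≤ (AK α b n).card := by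
    rw [← h2]; exact card_le_card h1
  calc ((Hq α b n).card : ℝ) * (√(n : ℝ) / Real.log n ^ 5) = ∑ q ∈ Hq α b n, √(n : ℝ) / Real.log n ^ 5 := by
        rw [sum_const, nsmul_eq_mul]
    _ ≤ ∑ q ∈ Hq α b n, ((Kq n q).card : ℝ) := by
        refine sum_le_sum fun q hq => ?_
        unfold Hq at hq
        rw [mem_filter] at hq
        exact (mem_Gq.1 hq.1).2.2.2.2
    _ ≤ _ := by exact_mod_cast h3

theorem resA (hG : S_GEN) (h1 : S_G1) (h2 : S_G2) : ∀ᵐ α : Fin 2 → ℝ, (∀ i, 0 < α i) → ∀ b : Fin 2 → ℤ,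
    Thin fun n => n % 2 = 1 ∧ ((AK α b n).card : ℝ) < n / Real.log n ^ 9 := by
  filter_upwards [finA hG h1 h2] with α hα hpos b
  refine thin_mono ?_ (hα hpos b)
  filter_upwards [tlog.eventually_ge_atTop 1, eventually_ge_atTop 1] with n hn hn1 hE
  refine ⟨hE.1, ?_⟩
  by_contra h
  push Not at h
  have h3 := AK_ge α b n
  have hn0 : (0 : ℝ) < n := by exact_mod_cast hn1
  have hl : 0 < Real.log (n : ℝ) := by linarith
  have h4 : √(n : ℝ) / Real.log n ^ 4 * 2 * (√(n : ℝ) / Real.log n ^ 5) ≤ ((AK α b n).card : ℝ) :=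
    (mul_le_mul_of_nonneg_right h (by positivity)).trans h3
  have h5 : √(n : ℝ) / Real.log n ^ 4 * 2 * (√(n : ℝ) / Real.log n ^ 5) = 2 * (n / Real.log n ^ 9) := by
    have : √(n : ℝ) * √(n : ℝ) = n := Real.mul_self_sqrt hn0.le
    calc _ = 2 * ((√(n : ℝ) * √(n : ℝ)) / (Real.log n ^ 4 * Real.log n ^ 5)) := by
          field_simp
      _ = _ := by rw [this, ← pow_add]
  rw [h5] at h4
  have h6 : 0 < (n : ℝ) / Real.log n ^ 9 := by positivity
  linarith [hE.2]

end Pool.Agent.L7h88.MW
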