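import Pool.Agent.L7h88.MW.ResB
import Pool.Agent.L7h88.MW.ResA
import Pool.Agent.L7h88.MW.Mvt
import Pool.Agent.L7h88.TS.All
import Pool.Agent.L7h2.MW.Gen
import Pool.Agent.L7h2.MW.SW
import Pool.Agent.L7h8.MW.PN1
import Pool.Agent.L7h8.MW.PN2
import Pool.Agent.L7h10.MW.Box
import Pool.Agent.L7h10.MW.Dec
import Pool.Agent.L7h37.MW.Ftl
import Pool.Agent.L7h37.MW.Ftt
import Pool.Agent.L7h45.MW.PL3
import Pool.Agent.L7h53.MW.Abl
import Pool.Agent.L7h53.MW.Lp
import Pool.Agent.L7h53.MW.Tii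
import Pool.Agent.L7h53.MW.Vau
import Pool.Agent.L7h58.MW.LL
import Pool.Agent.L7h58.MW.TI
import Pool.Agent.L7h58.MW.ZS
import Pool.Agent.L7h73.MW.Err
import Pool.Agent.L7h73.MW.Sav
import Pool.Agent.L7h73.MW.G1
import Pool.Agent.L7h73.MW.G2
import Pool.Agent.N280.HS.EX
import Pool.Agent.N999.HS.PRD

/-! # Project MW: assembly -/

set_option autoImplicit false

namespace Pool.Agent.L7h88.MW

/-- local mean squares of `Λ - 1` at height up to `N (log N)^C`, in windows of length `√N (log N)^C` -/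
theorem locLam : Loc Pool.Agent.Y957.VK.lamw :=
  Pool.Agent.L7h58.MW.s_LL (Pool.Agent.L7h58.MW.s_TI Pool.Agent.L7h58.MW.s_ZS)
    (Pool.Agent.L7h53.MW.s_TII s_MVT (Pool.Agent.L7h10.MW.s_BOX s_MVT Pool.Agent.L7h73.MW.s_SAV)
      Pool.Agent.L7h10.MW.s_DEC Pool.Agent.L7h73.MW.s_ERR)
    Pool.Agent.L7h53.MW.s_VAU Pool.Agent.L7h58.MW.s_ZS

/-- the same for `1_P - 1/log` -/
theorem locP : Loc pw := Pool.Agent.L7h53.MW.s_LP Pool.Agent.L7h53.MW.s_ABL s_MVT locLam

/-- one factor -/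
theorem sw : S_SW := Pool.Agent.L7h2.MW.s_SW Pool.Agent.L7h45.MW.s_PL3
  (Pool.Agent.L7h37.MW.s_FTL Pool.Agent.L7h53.MW.s_ABL locP) (Pool.Agent.L7h37.MW.s_FTT s_MVT)

/-- **Metric windows**: for almost every `(α_1, …, α_k)` in the positive orthant and all integers `b_i`, in almost all windows
`(M_n, M_n + R_n]` of length `R_n ≥ √M_n / (log n)^C` and for arbitrary subsets, all the `⌊α_i u⌋ + b_i` are primes for the expected
number of the `u` in the subset. -/
theorem gen : S_GEN := Pool.Agent.L7h2.MW.s_GEN sw Pool.Agent.N999.HS.prd Pool.Agent.N280.HS.ex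

/-- Goldbach type input for the totient problem -/
theorem g1 : S_G1 := Pool.Agent.L7h73.MW.s_G1 Pool.Agent.L7h88.TS.fin1 Pool.Agent.L7h88.TS.prw

/-- long ranges of primes are rare -/
theorem g2 : S_G2 := Pool.Agent.L7h73.MW.s_G2

/-- primes in almost all windows on the logarithmic scale -/
theorem pn1 : S_PN1 := Pool.Agent.L7h8.MW.s_PN1 s_MVT locLam

/-- the prime number theorem between almost all consecutive squares, in all subintervals at once -/
theorem pn2 : S_PN2 := Pool.Agent.L7h8.MW.s_PN2 pn1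

end Pool.Agent.L7h88.MW
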