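import Pool.Agent.L7h88.MW.Thn
import Pool.Agent.N75.HS.NP

/-! # Project MW: the totient application -/

set_option autoImplicit false

namespace Pool.Agent.L7h88.MW

open Finset MeasureTheory Filter Topology
open Pool.Agent.N798.HS (Thin thin_mono)
open Pool.Agent.L7h88.TS (Kq)

/-- the left end of the window -/
noncomputable def Ma (n : ℕ) : ℕ := pp (lo n) - lo n

/-- the length of the window -/
noncomputable def Ra (n : ℕ) : ℕ := (pp (hi n) - hi n) - (pp (lo n) - lo n)

/-- the map `q ↦ p_q - q` -/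
noncomputable def ua (_ : Fin 2) (_ q : ℕ) : ℕ := pp q - q

open Classical in
/-- the set of the `q` -/
noncomputable def Wa (K n : ℕ) : Finset ℕ :=
  if (pp (hi n) : ℝ) - pp (lo n) ≤ √(n : ℝ) * Real.log n ^ (2 * K + 6) then Gq n else ∅

lemma mem_Gq {n q : ℕ} : q ∈ Gq n ↔ (1 ≤ q ∧ q ≤ n) ∧ q.Prime ∧ Nat.sqrt n + 2 * q < n + 1 ∧
    n + 1 ≤ 2 * Nat.sqrt n + 2 * q ∧ √(n : ℝ) / Real.log n ^ 5 ≤ ((Kq n q).card : ℝ) := by
  unfold Gq
  rw [mem_filter, mem_Icc]

lemma u_mono {a b : ℕ} (ha : 2 ≤ a) (hab : a < b) : pp a - a < pp b - b := by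
  obtain ⟨d, rfl⟩ : ∃ d, b = a + d := ⟨b - a, by omega⟩
  have h1 := pp_add ha d
  have h2 := pp_ge a (by omega)
  omega

lemma u_add {a : ℕ} (ha : 2 ≤ a) (d : ℕ) : pp a - a + d ≤ pp (a + d) - (a + d) := by
  have h1 := pp_add ha d
  have h2 := pp_ge a (by omega)
  omega

lemma tlog : Tendsto (fun n : ℕ => Real.log (n : ℝ)) atTop atTop :=
  Real.tendsto_log_atTop.comp tendsto_natCast_atTop_atTop

/-- powers of the logarithm -/
lemma log_pow_le_sqrt (C : ℕ) : ∀ᶠ n : ℕ in atTop, Real.log (n : ℝ) ^ C ≤ √(n : ℝ) := by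
  have h1 : Tendsto (fun x : ℝ => (Real.log x) ^ C / x ^ (1 / 2 : ℝ)) atTop (𝓝 0) := by
    have := (isLittleO_log_rpow_rpow_atTop (s := (1 / 2 : ℝ)) (C : ℝ) (by norm_num)).tendsto_div_nhds_zero
    refine this.congr fun x => ?_
    rw [Real.rpow_natCast]
  have h2 := (h1.comp tendsto_natCast_atTop_atTop).eventually_le_const (show (0 : ℝ) < 1 by norm_num)
  filter_upwards [h2, eventually_gt_atTop 0] with n hn hn0
  have hn' : (0 : ℝ) < n := by exact_mod_cast hn0
  simp only [Function.comp_apply] at hn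
  rw [← Real.sqrt_eq_rpow, div_le_one (Real.sqrt_pos.2 hn')] at hn
  exact hn

/-- the sizes -/
lemma sizes : ∀ᶠ n : ℕ in atTop, 2 ≤ lo n ∧ lo n + Nat.sqrt n + 1 = hi n ∧ 9 * n ≤ 20 * lo n ∧ n ≤ Ma n := by
  filter_upwards [eventually_ge_atTop 100000] with n hn
  have h1 : Nat.sqrt n * Nat.sqrt n ≤ n := Nat.sqrt_le n
  have h3 : 316 ≤ Nat.sqrt n := Nat.le_sqrt.2 (by omega)
  have h2 : Nat.sqrt n * 316 ≤ n := (Nat.mul_le_mul_left _ h3).trans h1
  have h4 : lo n = (n + 1) / 2 - Nat.sqrt n - 1 := rfl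
  have h5 : hi n = (n + 1) / 2 := rfl
  have h6 : 9 * n ≤ 20 * lo n := by omega
  refine ⟨by omega, by omega, h6, ?_⟩
  have h7 := pp_lower (lo n) (by omega)
  have h8 := pp_ge (lo n) (by omega)
  unfold Ma
  omega

lemma winA (K : ℕ) : ∃ C : ℕ, Win ua Ma Ra (Wa K) C := by
  classical
  obtain ⟨_, _, C1, n1, hnp⟩ := Pool.Agent.N75.HS.np
  refine ⟨C1 + 2, ?_⟩
  have hall : ∀ᶠ n : ℕ in atTop, (Wa K n).Nonempty → n ≤ Ma n ∧ (Ma n : ℝ) ≤ (n : ℝ) ^ (C1 + 2) ∧
      √(Ma n : ℝ) ≤ Ra n * Real.log n ^ (C1 + 2) ∧ Ra n ≤ Ma n ∧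
      ∀ i, Set.InjOn (ua i n) (Wa K n) ∧ ∀ j ∈ Wa K n, ua i n j ∈ Ioc (Ma n) (Ma n + Ra n) := by
    filter_upwards [sizes, log_pow_le_sqrt C1, log_pow_le_sqrt (2 * K + 6), tlog.eventually_ge_atTop 2,
      eventually_ge_atTop (3 * n1 + 10)] with n hs hl1 hl2 hlog hn hne
    obtain ⟨h2, h3, h4, h5⟩ := hs
    have hn0 : (1 : ℝ) ≤ n := by exact_mod_cast (by omega : 1 ≤ n)
    have hlon : lo n ≤ n := by unfold lo; omega
    have hppR : (pp (lo n) : ℝ) ≤ n * Real.log n ^ C1 := by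
      have h6 := hnp (lo n) (by omega)
      have h7 : ((Nat.nth Nat.Prime (lo n - 1) : ℕ) : ℝ) = pp (lo n) := rfl
      rw [h7] at h6
      have h8 : (lo n : ℝ) ≤ n := by exact_mod_cast hlon
      have h9 : (0 : ℝ) < lo n := by exact_mod_cast (by omega : 0 < lo n)
      have h10 : Real.log (lo n) ≤ Real.log n := Real.log_le_log h9 h8
      have h11 : 0 ≤ Real.log (lo n : ℝ) := Real.log_natCast_nonneg _
      refine h6.trans ?_
      exact mul_le_mul h8 (pow_le_pow_left₀ h11 h10 _) (by positivity) (by positivity)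
    have hMa : (Ma n : ℝ) ≤ n * Real.log n ^ C1 := by
      refine le_trans ?_ hppR
      exact_mod_cast Nat.sub_le _ _
    have hsq : √(n : ℝ) ≤ n := by
      rw [Real.sqrt_le_left (by linarith)]
      nlinarith
    -- the length
    have hRlo : Nat.sqrt n + 1 ≤ Ra n := by
      have := u_add h2 (Nat.sqrt n + 1)
      rw [show lo n + (Nat.sqrt n + 1) = hi n by omega] at this
      unfold Ra
      omega
    have hsR : √(n : ℝ) ≤ Ra n := by
      have h6 : √(n : ℝ) ≤ (Nat.sqrt n : ℝ) + 1 := Real.real_sqrt_lt_nat_sqrt_succ.le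
      have h7 : ((Nat.sqrt n + 1 : ℕ) : ℝ) ≤ Ra n := by exact_mod_cast hRlo
      push_cast at h7
      linarith
    have hWn : Wa K n = Gq n ∧ (pp (hi n) : ℝ) - pp (lo n) ≤ √(n : ℝ) * Real.log n ^ (2 * K + 6) := by
      unfold Wa at hne ⊢
      split_ifs at hne ⊢ with h
      · exact ⟨rfl, h⟩
      · exact absurd hne (by simp)
    refine ⟨h5, ?_, ?_, ?_, fun i => ?_⟩
    · calc (Ma n : ℝ) ≤ n * Real.log n ^ C1 := hMa
        _ ≤ n * n := mul_le_mul_of_nonneg_left (hl1.trans hsq) (by positivity)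
        _ = (n : ℝ) ^ 2 := by ring
        _ ≤ _ := pow_le_pow_right₀ hn0 (by omega)
    · have h6 : √(Ma n : ℝ) ≤ √(n : ℝ) * Real.log n ^ C1 := by
        rw [Real.sqrt_le_left (by positivity), mul_pow, Real.sq_sqrt (by positivity)]
        refine hMa.trans (mul_le_mul_of_nonneg_left ?_ (by positivity))
        rw [← pow_mul]
        exact pow_le_pow_right₀ (by linarith) (by omega)
      refine h6.trans (mul_le_mul hsR (pow_le_pow_right₀ (by linarith) (by omega)) (by positivity) (by positivity))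
    · have h6 : (Ra n : ℝ) ≤ n := by
        have h7 : Ra n ≤ pp (hi n) - pp (lo n) := by
          have h8 := pp_ge (lo n) (by omega)
          have h9 := pp_ge (hi n) (by omega)
          unfold Ra
          omega
        have h8 : pp (lo n) ≤ pp (hi n) := (pp_mono (by omega) (by omega)).le
        have h9 : (Ra n : ℝ) ≤ (pp (hi n) : ℝ) - pp (lo n) := by
          have : (Ra n : ℝ) ≤ ((pp (hi n) - pp (lo n) : ℕ) : ℝ) := by exact_mod_cast h7
          rwa [Nat.cast_sub h8] at this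
        calc (Ra n : ℝ) ≤ √(n : ℝ) * Real.log n ^ (2 * K + 6) := h9.trans hWn.2
          _ ≤ √(n : ℝ) * √(n : ℝ) := mul_le_mul_of_nonneg_left hl2 (by positivity)
          _ = n := Real.mul_self_sqrt (by positivity)
      have h7 : Ra n ≤ n := by exact_mod_cast h6
      omega
    · have hq : ∀ q ∈ Wa K n, lo n < q ∧ q ≤ hi n := by
        intro q hq
        rw [hWn.1, mem_Gq] at hq
        have h6 : hi n = (n + 1) / 2 := rfl
        omega
      refine ⟨?_, fun q hqm => ?_⟩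
      · intro q hqm q' hqm' heq
        have h6 := hq q hqm
        have h7 := hq q' hqm'
        simp only [ua] at heq
        rcases lt_trichotomy q q' with h | h | h
        · have := u_mono (by omega : 2 ≤ q) h
          omega
        · exact h
        · have := u_mono (by omega : 2 ≤ q') h
          omega
      · have h6 := hq q hqm
        have h7 := u_mono h2 h6.1
        have h8 : pp q - q ≤ pp (hi n) - hi n := by
          rcases eq_or_lt_of_le h6.2 with h | h
          · rw [h]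
          · exact (u_mono (by omega : 2 ≤ q) h).le
        rw [mem_Ioc]
        unfold ua Ma Ra
        omega
  obtain ⟨n0, hn0⟩ := eventually_atTop.1 hall
  exact ⟨n0, hn0⟩

open Classical in
/-- the `q` of `Gq n` for which the two other numbers are primes -/
noncomputable def Hq (α : Fin 2 → ℝ) (b : Fin 2 → ℤ) (n : ℕ) : Finset ℕ :=
  (Gq n).filter fun q => ∀ i, (⌊α i * ((pp q - q : ℕ) : ℝ)⌋ + b i).toNat.Prime

/-- for almost all odd `n` there are many such `q` -/
theorem finA (hG : S_GEN) (h1 : S_G1) (h2 : S_G2) : ∀ᵐ α : Fin 2 → ℝ, (∀ i, 0 < α i) → ∀ b : Fin 2 → ℤ,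
    Thin fun n => n % 2 = 1 ∧ ((Hq α b n).card : ℝ) < √(n : ℝ) / Real.log n ^ 4 * 2 := by
  classical
  have hae : ∀ K : ℕ, ∀ᵐ α : Fin 2 → ℝ, (∀ i, 0 < α i) → ∀ b : Fin 2 → ℤ, ∀ L : ℕ,
      Thin fun n => (Ra n : ℝ) / Real.log n ^ L < |(cntG ua (Wa K) b α n : ℝ) - mainG ua (Wa K) α n| := by
    intro K
    obtain ⟨C, hC⟩ := winA K
    exact hG 2 ua Ma Ra (Wa K) C hC
  obtain ⟨c, hc, h1⟩ := h1
  filter_upwards [ae_all_iff.2 hae] with α hα hpos b
  refine thin_of fun K => ?_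
  refine ⟨_, fun n => (n % 2 = 1 ∧ ((Gq n).card : ℝ) < c * √(n : ℝ) / Real.log n) ∨
    √(n : ℝ) * Real.log n ^ (2 * (K + 1) + 6) < (pp (hi n) : ℝ) - pp (lo n), hα (K + 1) hpos b (2 * (K + 1) + 10), ?_, ?_⟩
  · obtain ⟨X1, hX1⟩ := h1 (K + 1)
    obtain ⟨X2, hX2⟩ := h2 (K + 1)
    filter_upwards [eventually_ge_atTop X1, eventually_ge_atTop X2] with X hX1' hX2'
    have e1 := hX1 X hX1'
    have e2 := hX2 X hX2'
    have e3 : #((Icc 1 X).filter fun n : ℕ => (n % 2 = 1 ∧ ((Gq n).card : ℝ) < c * √(n : ℝ) / Real.log n) ∨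
        √(n : ℝ) * Real.log n ^ (2 * (K + 1) + 6) < (pp (hi n) : ℝ) - pp (lo n)) ≤
        #((Icc 1 X).filter fun n : ℕ => (n % 2 = 1 ∧ ((Gq n).card : ℝ) < c * √(n : ℝ) / Real.log n)) +
        #((Icc 1 X).filter fun n : ℕ => √(n : ℝ) * Real.log n ^ (2 * (K + 1) + 6) < (pp (hi n) : ℝ) - pp (lo n)) := by
      refine (card_le_card ?_).trans (card_union_le _ _)
      intro n hn
      rw [mem_filter] at hn
      rw [mem_union, mem_filter, mem_filter]
      rcases hn.2 with h | h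
      · exact Or.inl ⟨hn.1, h⟩
      · exact Or.inr ⟨hn.1, h⟩
    have e4 : (#((Icc 1 X).filter fun n : ℕ => (n % 2 = 1 ∧ ((Gq n).card : ℝ) < c * √(n : ℝ) / Real.log n) ∨
        √(n : ℝ) * Real.log n ^ (2 * (K + 1) + 6) < (pp (hi n) : ℝ) - pp (lo n)) : ℝ) ≤
        #((Icc 1 X).filter fun n : ℕ => (n % 2 = 1 ∧ ((Gq n).card : ℝ) < c * √(n : ℝ) / Real.log n)) +
        #((Icc 1 X).filter fun n : ℕ => √(n : ℝ) * Real.log n ^ (2 * (K + 1) + 6) < (pp (hi n) : ℝ) - pp (lo n)) := by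
      exact_mod_cast e3
    have e5 : (#((Icc 1 X).filter fun n : ℕ => (n % 2 = 1 ∧ ((Gq n).card : ℝ) < c * √(n : ℝ) / Real.log n)) : ℝ) ≤
        X / Real.log X ^ (K + 1) := by convert e1
    have e6 : (#((Icc 1 X).filter fun n : ℕ => √(n : ℝ) * Real.log n ^ (2 * (K + 1) + 6) < (pp (hi n) : ℝ) - pp (lo n)) : ℝ) ≤
        X / Real.log X ^ (K + 1) := by convert e2
    have e7 : (#((Icc 1 X).filter fun n : ℕ => (n % 2 = 1 ∧ ((Gq n).card : ℝ) < c * √(n : ℝ) / Real.log n) ∨
        √(n : ℝ) * Real.log n ^ (2 * (K + 1) + 6) < (pp (hi n) : ℝ) - pp (lo n)) : ℝ) ≤ 2 * X / Real.log X ^ (K + 1) := by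
      have : 2 * (X : ℝ) / Real.log X ^ (K + 1) = X / Real.log X ^ (K + 1) + X / Real.log X ^ (K + 1) := by ring
      linarith
    convert e7
  · have hall : ∀ᶠ n : ℕ in atTop, ∀ i, ∀ q ∈ Gq n, 0 < Real.log (α i * ((pp q - q : ℕ) : ℝ)) ∧
        Real.log (α i * ((pp q - q : ℕ) : ℝ)) ≤ 3 * Real.log n := by
      obtain ⟨_, _, C1, n1, hnp⟩ := Pool.Agent.N75.HS.np
      have ha : ∀ i, ∀ᶠ n : ℕ in atTop, Real.exp 1 ≤ α i * n ∧ α i ≤ n := by
        intro i
        have t1 : Tendsto (fun n : ℕ => α i * (n : ℝ)) atTop atTop :=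
          tendsto_natCast_atTop_atTop.const_mul_atTop (hpos i)
        filter_upwards [t1.eventually_ge_atTop (Real.exp 1), (tendsto_natCast_atTop_atTop (R := ℝ)).eventually_ge_atTop (α i)]
          with n h3 h4
        exact ⟨h3, h4⟩
      filter_upwards [eventually_all.2 ha, sizes, log_pow_le_sqrt C1, eventually_ge_atTop (3 * n1 + 10)] with n h3 hs hl hn i q hq
      obtain ⟨g2, g3, g4, g5⟩ := hs
      rw [mem_Gq] at hq
      have g6 : hi n = (n + 1) / 2 := rfl
      have g7 : lo n < q := by omega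
      have g8 := u_mono g2 g7
      have g9 : n ≤ pp q - q := by unfold Ma at g5; omega
      have g9' : (n : ℝ) ≤ ((pp q - q : ℕ) : ℝ) := by exact_mod_cast g9
      have hn0 : (1 : ℝ) ≤ n := by exact_mod_cast (by omega : 1 ≤ n)
      have h5 : Real.exp 1 ≤ α i * ((pp q - q : ℕ) : ℝ) :=
        (h3 i).1.trans (mul_le_mul_of_nonneg_left g9' (hpos i).le)
      have hq1 : q ≤ n := hq.1.2
      have hqR : (q : ℝ) ≤ n := by exact_mod_cast hq1
      have hq0 : (0 : ℝ) < q := by exact_mod_cast (by omega : 0 < q)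
      have h6 : ((pp q - q : ℕ) : ℝ) ≤ (n : ℝ) ^ 2 := by
        have h7 := hnp q (by omega)
        have h8 : ((Nat.nth Nat.Prime (q - 1) : ℕ) : ℝ) = pp q := rfl
        rw [h8] at h7
        have h9 : ((pp q - q : ℕ) : ℝ) ≤ pp q := by exact_mod_cast Nat.sub_le _ _
        have hsq : √(n : ℝ) ≤ n := by
          rw [Real.sqrt_le_left (by linarith)]
          nlinarith
        have h10 : Real.log q ^ C1 ≤ n :=
          (pow_le_pow_left₀ (Real.log_natCast_nonneg _) (Real.log_le_log hq0 hqR) _).trans (hl.trans hsq)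
        calc _ ≤ (q : ℝ) * Real.log q ^ C1 := h9.trans h7
          _ ≤ n * n := mul_le_mul hqR h10 (pow_nonneg (Real.log_natCast_nonneg _) _) (by positivity)
          _ = _ := by ring
      have h7 : 0 < α i * ((pp q - q : ℕ) : ℝ) := lt_of_lt_of_le (Real.exp_pos 1) h5
      refine ⟨?_, ?_⟩
      · have := (Real.le_log_iff_exp_le h7).2 h5
        linarith
      · have h8 : α i * ((pp q - q : ℕ) : ℝ) ≤ (n : ℝ) ^ 3 := by
          calc _ ≤ (n : ℝ) * (n : ℝ) ^ 2 := mul_le_mul (h3 i).2 h6 (by positivity) (by positivity)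
            _ = _ := by ring
        have h9 := Real.log_le_log h7 h8
        rw [Real.log_pow] at h9
        exact_mod_cast h9
    filter_upwards [hall, tlog.eventually_ge_atTop (9 / c * 3 + 2), sizes, eventually_ge_atTop 2] with n h3 hlog hs hn2 hE
    by_contra hcon
    push Not at hcon
    obtain ⟨hA, hB⟩ := hcon
    have hBa : c * √(n : ℝ) / Real.log n ≤ ((Gq n).card : ℝ) := hB.1 hE.1
    have hBb : (pp (hi n) : ℝ) - pp (lo n) ≤ √(n : ℝ) * Real.log n ^ (2 * (K + 1) + 6) := hB.2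
    have hW : Wa (K + 1) n = Gq n := by
      unfold Wa
      rw [if_pos hBb]
    have h9c : 0 < 9 / c := by positivity
    have hl0 : 0 < Real.log (n : ℝ) := by linarith
    have hl2 : 2 ≤ Real.log (n : ℝ) := by linarith
    have hcnt : cntG ua (Wa (K + 1)) b α n = (Hq α b n).card := by
      unfold cntG Hq ua
      rw [hW]
    have hmain : c * √(n : ℝ) / (9 * Real.log n ^ 3) ≤ mainG ua (Wa (K + 1)) α n := by
      unfold mainG
      rw [hW]
      have h4 : ∀ q ∈ Gq n, 1 / (9 * Real.log (n : ℝ) ^ 2) ≤ ∏ i, 1 / Real.log (α i * ua i n q) := by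
        intro q hq
        rw [Fin.prod_univ_two]
        have a0 := h3 0 q hq
        have a1 := h3 1 q hq
        have e0 : (ua 0 n q : ℝ) = ((pp q - q : ℕ) : ℝ) := rfl
        have e1 : (ua 1 n q : ℝ) = ((pp q - q : ℕ) : ℝ) := rfl
        rw [e0, e1, div_mul_div_comm, one_mul]
        apply one_div_le_one_div_of_le (mul_pos a0.1 a1.1)
        calc _ ≤ (3 * Real.log n) * (3 * Real.log n) := mul_le_mul a0.2 a1.2 a1.1.le (by positivity)
          _ = _ := by ring
      calc c * √(n : ℝ) / (9 * Real.log n ^ 3) = c * √(n : ℝ) / Real.log n * (1 / (9 * Real.log n ^ 2)) := by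
            field_simp
        _ ≤ (Gq n).card * (1 / (9 * Real.log n ^ 2)) := mul_le_mul_of_nonneg_right hBa (by positivity)
        _ = ∑ q ∈ Gq n, 1 / (9 * Real.log (n : ℝ) ^ 2) := by rw [sum_const, nsmul_eq_mul]
        _ ≤ _ := sum_le_sum h4
    have hRa : (Ra n : ℝ) / Real.log n ^ (2 * (K + 1) + 10) ≤ √(n : ℝ) / Real.log n ^ 4 := by
      have h7 : Ra n ≤ pp (hi n) - pp (lo n) := by
        have h8 := pp_ge (lo n) (by omega)
        have h9 := pp_ge (hi n) (by omega)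
        unfold Ra
        omega
      have h8 : pp (lo n) ≤ pp (hi n) := (pp_mono (by omega) (by omega)).le
      have h9 : (Ra n : ℝ) ≤ (pp (hi n) : ℝ) - pp (lo n) := by
        have : (Ra n : ℝ) ≤ ((pp (hi n) - pp (lo n) : ℕ) : ℝ) := by exact_mod_cast h7
        rwa [Nat.cast_sub h8] at this
      calc (Ra n : ℝ) / Real.log n ^ (2 * (K + 1) + 10) ≤
            √(n : ℝ) * Real.log n ^ (2 * (K + 1) + 6) / Real.log n ^ (2 * (K + 1) + 10) :=
            div_le_div_of_nonneg_right (h9.trans hBb) (by positivity)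
        _ = √(n : ℝ) / Real.log n ^ 4 := by
            have e3 : Real.log (n : ℝ) ^ (2 * (K + 1) + 10) = Real.log n ^ 4 * Real.log n ^ (2 * (K + 1) + 6) := by
              rw [← pow_add]
              congr 1
              ring
            rw [e3]
            exact mul_div_mul_right _ _ (by positivity)
    have h5 := hA
    rw [hcnt] at h5
    have h6 := (abs_le.1 h5).1
    have h7 := hE.2
    have hs0 : 1 ≤ √(n : ℝ) := by
      rw [Real.one_le_sqrt]
      exact_mod_cast (by omega : 1 ≤ n)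
    -- compare
    have h8 : 3 * (√(n : ℝ) / Real.log n ^ 4) < c * √(n : ℝ) / (9 * Real.log n ^ 3) := by
      rw [mul_div_assoc', div_lt_div_iff₀ (by positivity) (by positivity)]
      have h10 : 27 < c * Real.log n := by
        have h11 : c * (9 / c * 3 + 2) ≤ c * Real.log n := mul_le_mul_of_nonneg_left hlog hc.le
        have e : c * (9 / c * 3 + 2) = 27 + 2 * c := by
          field_simp
          ring
        linarith
      have e1 : 3 * √(n : ℝ) * (9 * Real.log n ^ 3) = 27 * (√(n : ℝ) * Real.log n ^ 3) := by ring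
      have e2 : c * √(n : ℝ) * Real.log n ^ 4 = (c * Real.log n) * (√(n : ℝ) * Real.log n ^ 3) := by ring
      rw [e1, e2]
      exact mul_lt_mul_of_pos_right h10 (by positivity)
    linarith

end Pool.Agent.L7h88.MW
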