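import Pool.Agent.L7h88.MW.FinA

/-! # Project MW: primes between consecutive squares, metric form -/

set_option autoImplicit false

namespace Pool.Agent.L7h88.MW

open Finset MeasureTheory Filter Topology
open Pool.Agent.N798.HS (Thin thin_mono)

open Classical in
/-- the `k` between `2 u N` and `2 v N` with `N² + k + 1` a prime -/
noncomputable def WB (u v : ℝ) (N : ℕ) : Finset ℕ :=
  (Icc 2 (2 * N)).filter fun k : ℕ => 2 * u * N ≤ k ∧ (k : ℝ) ≤ 2 * v * N ∧ (N ^ 2 + k + 1).Prime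

/-- the second number -/
def uB {t : ℕ} (_ : Fin t) (N k : ℕ) : ℕ := (N + 1) ^ 2 - k

lemma mem_WB {u v : ℝ} {N k : ℕ} : k ∈ WB u v N ↔ (2 ≤ k ∧ k ≤ 2 * N) ∧ 2 * u * N ≤ k ∧ (k : ℝ) ≤ 2 * v * N ∧ (N ^ 2 + k + 1).Prime := by
  unfold WB
  rw [mem_filter, mem_Icc]

lemma winB (t : ℕ) (u v : ℝ) : Win (uB (t := t)) (fun N => N ^ 2) (fun N => 2 * N + 1) (WB u v) 2 := by
  have hall : ∀ᶠ n : ℕ in atTop, (WB u v n).Nonempty → n ≤ n ^ 2 ∧ ((n ^ 2 : ℕ) : ℝ) ≤ (n : ℝ) ^ 2 ∧
      √((n ^ 2 : ℕ) : ℝ) ≤ ((2 * n + 1 : ℕ) : ℝ) * Real.log n ^ 2 ∧ 2 * n + 1 ≤ n ^ 2 ∧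
      ∀ i : Fin t, Set.InjOn (uB i n) (WB u v n) ∧ ∀ j ∈ WB u v n, uB i n j ∈ Ioc (n ^ 2) (n ^ 2 + (2 * n + 1)) := by
    filter_upwards [tlog.eventually_ge_atTop 1, eventually_ge_atTop 3] with n hlog hn _
    have e : (n + 1) ^ 2 = n ^ 2 + 2 * n + 1 := by ring
    refine ⟨by nlinarith, by push_cast; exact le_rfl, ?_, by nlinarith, fun i => ⟨?_, fun j hj => ?_⟩⟩
    · push_cast
      rw [Real.sqrt_sq (Nat.cast_nonneg _)]
      have h1 : 1 ≤ Real.log (n : ℝ) ^ 2 := one_le_pow₀ hlog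
      have h2 : (0 : ℝ) ≤ n := Nat.cast_nonneg _
      nlinarith
    · intro k hk k' hk' h
      have h1 := (mem_WB.1 hk).1
      have h2 := (mem_WB.1 hk').1
      simp only [uB] at h
      omega
    · have h1 := (mem_WB.1 hj).1
      rw [mem_Ioc]
      unfold uB
      omega
  obtain ⟨n0, hn0⟩ := eventually_atTop.1 hall
  exact ⟨n0, hn0⟩

/-- the number of primes in the interval and the number of the `k` -/
lemma WB_pc {u v : ℝ} (hu : 0 ≤ u) (huv : u ≤ v) (hv : v ≤ 1) (N : ℕ) :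
    |((WB u v N).card : ℝ) - pc (N ^ 2 + 2 * u * N) (N ^ 2 + 2 * v * N)| ≤ 4 := by
  classical
  set P := (Ioc ⌊(N : ℝ) ^ 2 + 2 * u * N⌋₊ ⌊(N : ℝ) ^ 2 + 2 * v * N⌋₊).filter Nat.Prime with hP
  have hpc : (pc (N ^ 2 + 2 * u * N) (N ^ 2 + 2 * v * N) : ℝ) = P.card := rfl
  have hN : (0 : ℝ) ≤ N := Nat.cast_nonneg N
  have ha : 0 ≤ 2 * u * N := by positivity
  have hb : 0 ≤ 2 * v * N := by
    have : 0 ≤ v := hu.trans huv
    positivity
  have fl : ∀ x : ℝ, 0 ≤ x → ⌊(N : ℝ) ^ 2 + x⌋₊ = N ^ 2 + ⌊x⌋₊ := by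
    intro x hx
    have : (N : ℝ) ^ 2 + x = x + ((N ^ 2 : ℕ) : ℝ) := by push_cast; ring
    rw [this, Nat.floor_add_natCast hx, add_comm]
  rw [hpc]
  have h1 : (WB u v N).card ≤ P.card + 2 := by
    have h2 : (WB u v N).image (fun k => N ^ 2 + k + 1) ⊆ P ∪ {N ^ 2 + ⌊2 * v * N⌋₊ + 1} := by
      intro m hm
      rw [mem_image] at hm
      obtain ⟨k, hk, rfl⟩ := hm
      obtain ⟨h3, h4, h5, h6⟩ := mem_WB.1 hk
      have h7 : k ≤ ⌊2 * v * N⌋₊ := Nat.le_floor h5
      have h8 : ⌊2 * u * N⌋₊ ≤ k := by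
        have := Nat.floor_le_floor h4
        rwa [Nat.floor_natCast] at this
      rw [mem_union, mem_singleton, hP, mem_filter, mem_Ioc, fl _ ha, fl _ hb]
      rcases Nat.lt_or_ge k ⌊2 * v * N⌋₊ with h | h
      · exact Or.inl ⟨⟨by omega, by omega⟩, h6⟩
      · right; omega
    have h3 : ((WB u v N).image (fun k => N ^ 2 + k + 1)).card = (WB u v N).card :=
      card_image_of_injective _ fun a b h => by simpa using h
    have h4 := (card_le_card h2).trans (card_union_le _ _)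
    rw [h3, card_singleton] at h4
    omega
  have h2 : P.card ≤ (WB u v N).card + 4 := by
    have h3 : P ⊆ (WB u v N).image (fun k => N ^ 2 + k + 1) ∪ {N ^ 2 + 1, N ^ 2 + 2, N ^ 2 + ⌊2 * u * N⌋₊ + 1, N ^ 2} := by
      intro m hm
      rw [hP, mem_filter, mem_Ioc, fl _ ha, fl _ hb] at hm
      obtain ⟨⟨h4, h5⟩, h6⟩ := hm
      rw [mem_union, mem_image]
      have hv2 : ⌊2 * v * N⌋₊ ≤ 2 * N := by
        have h7 : 2 * v * N ≤ ((2 * N : ℕ) : ℝ) := by
          push_cast
          nlinarith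
        have := Nat.floor_le_floor h7
        rwa [Nat.floor_natCast] at this
      by_cases h8 : N ^ 2 + 3 ≤ m ∧ N ^ 2 + ⌊2 * u * N⌋₊ + 2 ≤ m
      · left
        refine ⟨m - N ^ 2 - 1, mem_WB.2 ⟨⟨by omega, by omega⟩, ?_, ?_, ?_⟩, by omega⟩
        · have h9 : ⌊2 * u * N⌋₊ + 1 ≤ m - N ^ 2 - 1 := by omega
          have h10 : 2 * u * N < (⌊2 * u * N⌋₊ : ℝ) + 1 := Nat.lt_floor_add_one _
          have h11 : ((⌊2 * u * N⌋₊ + 1 : ℕ) : ℝ) ≤ ((m - N ^ 2 - 1 : ℕ) : ℝ) := by exact_mod_cast h9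
          push_cast at h11
          linarith
        · have h9 : m - N ^ 2 - 1 ≤ ⌊2 * v * N⌋₊ := by omega
          have h10 : (⌊2 * v * N⌋₊ : ℝ) ≤ 2 * v * N := Nat.floor_le hb
          have h11 : ((m - N ^ 2 - 1 : ℕ) : ℝ) ≤ (⌊2 * v * N⌋₊ : ℝ) := by exact_mod_cast h9
          linarith
        · have : N ^ 2 + (m - N ^ 2 - 1) + 1 = m := by omega
          rw [this]
          exact h6
      · right
        rw [mem_insert, mem_insert, mem_insert, mem_singleton]
        omega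
    refine (card_le_card h3).trans ((card_union_le _ _).trans (Nat.add_le_add card_image_le ?_))
    exact card_le_four
  have h3 : ((WB u v N).card : ℝ) ≤ P.card + 2 := by exact_mod_cast h1
  have h4 : (P.card : ℝ) ≤ (WB u v N).card + 4 := by exact_mod_cast h2
  rw [abs_le]
  constructor <;> linarith

/-- one logarithm -/
lemma log_ratio (a : ℝ) (ha : 0 < a) : Tendsto (fun n : ℕ => 2 * Real.log n / Real.log (a * (n : ℝ) ^ 2)) atTop (𝓝 1) := by
  have h1 : Tendsto (fun n : ℕ => Real.log a / (2 * Real.log (n : ℝ)) + 1) atTop (𝓝 (0 + 1)) :=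
    ((tlog.const_mul_atTop (by norm_num : (0 : ℝ) < 2)).const_div_atTop (Real.log a)).add_const 1
  have h2 := h1.inv₀ (by norm_num)
  rw [zero_add, inv_one] at h2
  refine h2.congr' ?_
  filter_upwards [tlog.eventually_ge_atTop 1, eventually_ge_atTop 1] with n hn hn1
  have hn0 : (0 : ℝ) < n := by exact_mod_cast hn1
  have hl : 0 < Real.log (n : ℝ) := by linarith
  rw [Real.log_mul ha.ne' (by positivity), Real.log_pow]
  push_cast
  have e : Real.log a / (2 * Real.log (n : ℝ)) + 1 = (Real.log a + 2 * Real.log n) / (2 * Real.log n) := by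
    field_simp
  rw [e, inv_div]

/-- the main term -/
lemma mainB {t : ℕ} (α : Fin t → ℝ) (hα : ∀ i, 0 < α i) (u v : ℝ) {ε : ℝ} (hε : 0 < ε) : ∀ᶠ n : ℕ in atTop,
    |mainG uB (WB u v) α n - (WB u v n).card / (2 * Real.log n) ^ t| ≤ ε * ((WB u v n).card / (2 * Real.log n) ^ t) := by
  have h1 : Tendsto (fun n : ℕ => ∏ i, (2 * Real.log n / Real.log (α i * (n : ℝ) ^ 2))) atTop (𝓝 (∏ _i : Fin t, (1 : ℝ))) :=
    tendsto_finsetProd _ fun i _ => log_ratio (α i) (hα i)
  have h2 : Tendsto (fun n : ℕ => ∏ i, (2 * Real.log n / Real.log (α i * 4 * (n : ℝ) ^ 2))) atTop (𝓝 (∏ _i : Fin t, (1 : ℝ))) :=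
    tendsto_finsetProd _ fun i _ => log_ratio (α i * 4) (by have := hα i; positivity)
  rw [prod_const_one] at h1 h2
  have h3 : ∀ᶠ n : ℕ in atTop, ∀ i, 1 ≤ Real.log (α i * (n : ℝ) ^ 2) := by
    rw [eventually_all]
    intro i
    have t1 : Tendsto (fun n : ℕ => α i * (n : ℝ)) atTop atTop :=
      tendsto_natCast_atTop_atTop.const_mul_atTop (hα i)
    filter_upwards [t1.eventually_ge_atTop (Real.exp 1), eventually_ge_atTop 1] with n h4 hn
    have hn1 : (1 : ℝ) ≤ n := by exact_mod_cast hn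
    have h5 : Real.exp 1 ≤ α i * (n : ℝ) ^ 2 := by
      calc Real.exp 1 ≤ α i * n := h4
        _ ≤ α i * (n : ℝ) ^ 2 := mul_le_mul_of_nonneg_left (by nlinarith) (hα i).le
    exact (Real.le_log_iff_exp_le (lt_of_lt_of_le (Real.exp_pos 1) h5)).2 h5
  filter_upwards [h1.eventually_le_const (show (1 : ℝ) < 1 + ε by linarith),
    h2.eventually_const_le (show 1 - ε < (1 : ℝ) by linarith), h3, tlog.eventually_ge_atTop 1,
    eventually_ge_atTop 1] with n g1 g2 g3 hlog hn
  have hn1 : (1 : ℝ) ≤ n := by exact_mod_cast hn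
  have hn0 : (0 : ℝ) < n := by linarith
  have hl : 0 < Real.log (n : ℝ) := by linarith
  set D : ℝ := (2 * Real.log (n : ℝ)) ^ t with hD
  have hD0 : 0 < D := by positivity
  have key : ∀ k ∈ WB u v n, |(∏ i, 1 / Real.log (α i * uB i n k)) - 1 / D| ≤ ε / D := by
    intro k hk
    obtain ⟨⟨_, hk2⟩, -⟩ := mem_WB.1 hk
    have c1 : ∀ i : Fin t, (n : ℝ) ^ 2 ≤ (uB i n k : ℝ) := by
      intro i
      have : n ^ 2 ≤ (n + 1) ^ 2 - k := by
        have e : (n + 1) ^ 2 = n ^ 2 + 2 * n + 1 := by ring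
        omega
      unfold uB
      exact_mod_cast this
    have c2 : ∀ i : Fin t, (uB i n k : ℝ) ≤ 4 * (n : ℝ) ^ 2 := by
      intro i
      have h5 : (n + 1) ^ 2 - k ≤ 4 * n ^ 2 := by
        have : (n + 1) ^ 2 ≤ 4 * n ^ 2 := by nlinarith
        omega
      unfold uB
      exact_mod_cast h5
    have d1 : ∀ i : Fin t, Real.log (α i * (n : ℝ) ^ 2) ≤ Real.log (α i * uB i n k) := by
      intro i
      have := hα i
      exact Real.log_le_log (by positivity) (mul_le_mul_of_nonneg_left (c1 i) (hα i).le)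
    have d2 : ∀ i : Fin t, Real.log (α i * uB i n k) ≤ Real.log (α i * 4 * (n : ℝ) ^ 2) := by
      intro i
      have h5 := hα i
      have h6 := c1 i
      apply Real.log_le_log
      · apply mul_pos h5
        exact lt_of_lt_of_le (by positivity) h6
      · rw [mul_assoc]
        exact mul_le_mul_of_nonneg_left (c2 i) (hα i).le
    have e1 : (∏ i, 1 / Real.log (α i * uB i n k)) * D = ∏ i : Fin t, (2 * Real.log n / Real.log (α i * uB i n k)) := by
      have : D = ∏ _i : Fin t, (2 * Real.log (n : ℝ)) := by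
        rw [prod_const, card_univ, Fintype.card_fin, hD]
      rw [this, ← prod_mul_distrib]
      refine prod_congr rfl fun i _ => ?_
      ring
    have f1 : (∏ i, 1 / Real.log (α i * uB i n k)) * D ≤ 1 + ε := by
      rw [e1]
      refine le_trans (prod_le_prod (fun i _ => ?_) fun i _ => ?_) g1
      · have : 0 ≤ Real.log (α i * uB i n k) := by linarith [g3 i, d1 i]
        positivity
      · exact div_le_div_of_nonneg_left (by positivity) (by linarith [g3 i]) (d1 i)
    have f2 : 1 - ε ≤ (∏ i, 1 / Real.log (α i * uB i n k)) * D := by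
      rw [e1]
      refine le_trans g2 (prod_le_prod (fun i _ => ?_) fun i _ => ?_)
      · have := g3 i; have := d1 i; have := d2 i
        have : 0 ≤ Real.log (α i * 4 * (n : ℝ) ^ 2) := by linarith
        positivity
      · exact div_le_div_of_nonneg_left (by positivity) (by linarith [g3 i, d1 i]) (d2 i)
    rw [abs_le]
    constructor
    · rw [← sub_nonneg]
      have : (∏ i, 1 / Real.log (α i * uB i n k)) - 1 / D - -(ε / D) =
          ((∏ i, 1 / Real.log (α i * uB i n k)) * D - (1 - ε)) / D := by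
        field_simp
        ring
      rw [this]
      exact div_nonneg (by linarith) hD0.le
    · rw [← sub_nonneg]
      have : ε / D - ((∏ i, 1 / Real.log (α i * uB i n k)) - 1 / D) =
          (1 + ε - (∏ i, 1 / Real.log (α i * uB i n k)) * D) / D := by
        field_simp
        ring
      rw [this]
      exact div_nonneg (by linarith) hD0.le
  unfold mainG
  have e2 : ((WB u v n).card : ℝ) / D = ∑ k ∈ WB u v n, 1 / D := by
    rw [sum_const, nsmul_eq_mul]
    ring
  rw [e2, ← sum_sub_distrib, mul_sum]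
  refine (abs_sum_le_sum_abs _ _).trans (sum_le_sum fun k hk => ?_)
  refine (key k hk).trans (le_of_eq (by ring))

open Classical in
/-- the count -/
noncomputable def cntB {t : ℕ} (α : Fin t → ℝ) (b : Fin t → ℤ) (u v : ℝ) (N : ℕ) : ℕ :=
  ((Icc 2 (2 * N)).filter fun k : ℕ => 2 * u * N ≤ k ∧ (k : ℝ) ≤ 2 * v * N ∧ (N ^ 2 + k + 1).Prime ∧
    ∀ i, (⌊α i * (((N + 1) ^ 2 - k : ℕ) : ℝ)⌋ + b i).toNat.Prime).card

theorem finB (hG : S_GEN) (hP : S_PN2) (t : ℕ) : ∀ᵐ α : Fin t → ℝ, (∀ i, 0 < α i) → ∀ (b : Fin t → ℤ) (u v : ℚ),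
    0 ≤ u → u < v → v ≤ 1 → ∀ ε : ℝ, 0 < ε →
    Thin fun N => ε < |(cntB α b u v N : ℝ) / (((v : ℝ) - u) * (2 * N) / (2 * Real.log N) ^ (t + 1)) - 1| := by
  classical
  have hae : ∀ uv : ℚ × ℚ, ∀ᵐ α : Fin t → ℝ, (∀ i, 0 < α i) → ∀ b : Fin t → ℤ, ∀ L : ℕ,
      Thin fun n => ((2 * n + 1 : ℕ) : ℝ) / Real.log n ^ L < |(cntG uB (WB uv.1 uv.2) b α n : ℝ) - mainG uB (WB uv.1 uv.2) α n| :=
    fun uv => hG t uB (fun N => N ^ 2) (fun N => 2 * N + 1) (WB uv.1 uv.2) 2 (winB t uv.1 uv.2)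
  filter_upwards [ae_all_iff.2 hae] with α hα hpos b u v hu huv hv ε hε
  have hu' : (0 : ℝ) ≤ u := by exact_mod_cast hu
  have huv' : (u : ℝ) < v := by exact_mod_cast huv
  have hv' : (v : ℝ) ≤ 1 := by exact_mod_cast hv
  set w : ℝ := (v : ℝ) - u with hw
  have hw0 : 0 < w := by linarith
  refine thin_of fun K => ?_
  refine ⟨_, fun N : ℕ => 2 ≤ N ∧ ¬ ∀ u v : ℝ, 0 ≤ u → u ≤ v → v ≤ 1 →
    |(pc (N ^ 2 + 2 * u * N) (N ^ 2 + 2 * v * N) : ℝ) - (v - u) * N / Real.log N| ≤ N / Real.log N ^ (K + 2),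
    hα (u, v) hpos b (t + 3), ?_, ?_⟩
  · obtain ⟨X1, hX1⟩ := hP (K + 2)
    filter_upwards [eventually_ge_atTop X1, tlog.eventually_ge_atTop 1] with X hX hl
    have e1 := hX1 X hX
    have e2 : (Icc 1 X).filter (fun N : ℕ => 2 ≤ N ∧ ¬ ∀ u v : ℝ, 0 ≤ u → u ≤ v → v ≤ 1 →
        |(pc (N ^ 2 + 2 * u * N) (N ^ 2 + 2 * v * N) : ℝ) - (v - u) * N / Real.log N| ≤ N / Real.log N ^ (K + 2)) =
        (Icc 2 X).filter (fun N : ℕ => ¬ ∀ u v : ℝ, 0 ≤ u → u ≤ v → v ≤ 1 →
        |(pc (N ^ 2 + 2 * u * N) (N ^ 2 + 2 * v * N) : ℝ) - (v - u) * N / Real.log N| ≤ N / Real.log N ^ (K + 2)) := by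
      ext N
      rw [mem_filter, mem_filter, mem_Icc, mem_Icc]
      constructor
      · rintro ⟨h1, h2, h3⟩; exact ⟨⟨h2, h1.2⟩, h3⟩
      · rintro ⟨h1, h3⟩; exact ⟨⟨by omega, h1.2⟩, h1.1, h3⟩
    have e3 : (#((Icc 1 X).filter (fun N : ℕ => 2 ≤ N ∧ ¬ ∀ u v : ℝ, 0 ≤ u → u ≤ v → v ≤ 1 →
        |(pc (N ^ 2 + 2 * u * N) (N ^ 2 + 2 * v * N) : ℝ) - (v - u) * N / Real.log N| ≤ N / Real.log N ^ (K + 2))) : ℝ) ≤
        X / Real.log X ^ (K + 2) := by
      rw [e2]
      convert e1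
    have hl0 : 0 < Real.log (X : ℝ) := by linarith
    have hX0 : (0 : ℝ) ≤ X := Nat.cast_nonneg X
    have e4 : (X : ℝ) / Real.log X ^ (K + 2) ≤ 2 * X / Real.log X ^ (K + 1) := by
      apply div_le_div₀ (by positivity) (by linarith) (by positivity)
      exact pow_le_pow_right₀ hl (by omega)
    refine (le_of_eq ?_).trans (e3.trans e4)
    congr!
  · have hbig : ∀ᶠ n : ℕ in atTop, (4 : ℝ) + n / Real.log n ^ 2 ≤ min ε 1 / 8 * (w * n / Real.log n) ∧
        ((2 * n + 1 : ℕ) : ℝ) / Real.log n ^ (t + 3) ≤ min ε 1 / 4 * (w * n / Real.log n / (2 * Real.log n) ^ t) := by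
      have he : 0 < min ε 1 := lt_min hε one_pos
      filter_upwards [log_pow_le_sqrt 2, tlog.eventually_ge_atTop (1 + 16 / (min ε 1 * w) * 5 + 4 / (min ε 1 * w) * 3 * 2 ^ t),
        eventually_ge_atTop 1] with n hn hl hn1
      have hn0 : (1 : ℝ) ≤ n := by exact_mod_cast hn1
      have q1 : 0 < 16 / (min ε 1 * w) * 5 := by positivity
      have q2 : 0 < 4 / (min ε 1 * w) * 3 * 2 ^ t := by positivity
      have hl1 : 1 ≤ Real.log (n : ℝ) := by linarith
      have hl0 : 0 < Real.log (n : ℝ) := by linarith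
      have hsq : √(n : ℝ) ≤ n := by
        rw [Real.sqrt_le_left (by linarith)]
        nlinarith
      have hn2 : 1 ≤ n / Real.log (n : ℝ) ^ 2 := by
        rw [one_le_div (by positivity)]
        exact hn.trans hsq
      constructor
      · have h1 : 4 + n / Real.log (n : ℝ) ^ 2 ≤ 5 * (n / Real.log n ^ 2) := by linarith
        refine h1.trans ?_
        have h2 : 40 / (min ε 1 * w) ≤ Real.log n := by
          have : 16 / (min ε 1 * w) * 5 = 80 / (min ε 1 * w) := by ring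
          have h3 : 0 < 40 / (min ε 1 * w) := by positivity
          have h4 : 80 / (min ε 1 * w) = 40 / (min ε 1 * w) + 40 / (min ε 1 * w) := by ring
          linarith
        rw [div_le_iff₀ (by positivity)] at h2
        have e1 : min ε 1 / 8 * (w * n / Real.log n) = (Real.log n * (min ε 1 * w)) / 8 * (n / Real.log n ^ 2) := by
          field_simp
        rw [e1]
        apply mul_le_mul_of_nonneg_right _ (by positivity)
        linarith
      · have h1 : ((2 * n + 1 : ℕ) : ℝ) ≤ 3 * n := by push_cast; linarith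
        have h2 : 12 * 2 ^ t / (min ε 1 * w) ≤ Real.log n := by
          have : 4 / (min ε 1 * w) * 3 * 2 ^ t = 12 * 2 ^ t / (min ε 1 * w) := by ring
          linarith
        rw [div_le_iff₀ (by positivity)] at h2
        have e1 : min ε 1 / 4 * (w * n / Real.log n / (2 * Real.log n) ^ t) =
            (min ε 1 * w * Real.log n ^ 2) / (4 * 2 ^ t) * (n / Real.log n ^ (t + 3)) := by
          rw [mul_pow, pow_add]
          field_simp
        rw [e1]
        have e2 : 3 * (n : ℝ) / Real.log n ^ (t + 3) = 3 * (n / Real.log n ^ (t + 3)) := by ring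
        refine (div_le_div_of_nonneg_right h1 (by positivity)).trans ?_
        rw [e2]
        apply mul_le_mul_of_nonneg_right _ (by positivity)
        rw [le_div_iff₀ (by positivity)]
        have h5 : Real.log (n : ℝ) ≤ Real.log n ^ 2 := by nlinarith
        have h6 : 0 < min ε 1 * w := by positivity
        nlinarith
    have he8 : 0 < min ε 1 / 8 := by
      have : 0 < min ε 1 := lt_min hε one_pos
      positivity
    filter_upwards [hbig, mainB α hpos (u : ℝ) (v : ℝ) he8, tlog.eventually_ge_atTop 1,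
      eventually_ge_atTop 2] with n hb hm hl hn hE
    by_contra hcon
    push Not at hcon
    obtain ⟨hA, hB⟩ := hcon
    have hB' := hB hn u v hu' huv'.le hv'
    have he : 0 < min ε 1 := lt_min hε one_pos
    have hn0 : (2 : ℝ) ≤ n := by exact_mod_cast hn
    have hl0 : 0 < Real.log (n : ℝ) := by linarith
    have hwpc := WB_pc hu' huv'.le hv' n
    set G : ℝ := w * n / Real.log n with hGd
    set D : ℝ := (2 * Real.log (n : ℝ)) ^ t with hDd
    have hG0 : 0 < G := by positivity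
    have hD0 : 0 < D := by positivity
    have hEE : w * (2 * n) / (2 * Real.log n) ^ (t + 1) = G / D := by
      rw [hGd, hDd, pow_succ]
      field_simp
    rw [hEE] at hE
    have hcnt : (cntB α b u v n : ℝ) = cntG uB (WB u v) b α n := by
      congr 1
      unfold cntB cntG WB uB
      rw [filter_filter]
      congr 1
      refine Finset.filter_congr fun k _ => ?_
      tauto
    rw [hcnt] at hE
    set x : ℝ := (cntG uB (WB u v) b α n : ℝ) with hx
    set m : ℝ := mainG uB (WB u v) α n with hmd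
    set c : ℝ := ((WB u v n).card : ℝ) with hcd
    have k1 : |x - m| ≤ min ε 1 / 4 * (G / D) := hA.trans hb.2
    have hlpow : (n : ℝ) / Real.log n ^ (K + 2) ≤ n / Real.log n ^ 2 := by
      apply div_le_div_of_nonneg_left (by linarith) (by positivity)
      exact pow_le_pow_right₀ hl (by omega)
    have k2 : |c - G| ≤ min ε 1 / 8 * G := by
      have h1 : |c - G| ≤ |c - pc (n ^ 2 + 2 * u * n) (n ^ 2 + 2 * v * n)| +
          |(pc (n ^ 2 + 2 * u * n) (n ^ 2 + 2 * v * n) : ℝ) - G| := abs_sub_le _ _ _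
      linarith [hb.1]
    have k3 : c ≤ 2 * G := by
      have h1 := (abs_le.1 k2).2
      have h2 : min ε 1 ≤ 1 := min_le_right _ _
      nlinarith
    have k4 : |m - c / D| ≤ min ε 1 / 4 * (G / D) := by
      refine hm.trans ?_
      have h1 : c / D ≤ 2 * (G / D) := by
        rw [mul_div_assoc']
        exact div_le_div_of_nonneg_right k3 hD0.le
      nlinarith
    have k5 : |c / D - G / D| ≤ min ε 1 / 8 * (G / D) := by
      rw [← sub_div, abs_div, abs_of_pos hD0, mul_div_assoc']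
      exact div_le_div_of_nonneg_right k2 hD0.le
    have hGD : 0 < G / D := by positivity
    have k6 : |x - G / D| ≤ 5 / 8 * min ε 1 * (G / D) := by
      have h1 : |x - G / D| ≤ |x - m| + |m - G / D| := abs_sub_le _ _ _
      have h2 : |m - G / D| ≤ |m - c / D| + |c / D - G / D| := abs_sub_le _ _ _
      linarith
    have k7 : |x / (G / D) - 1| = |x - G / D| / (G / D) := by
      have : x / (G / D) - 1 = (x - G / D) / (G / D) := by
        field_simp
      rw [this, abs_div, abs_of_pos hGD]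
    rw [k7, lt_div_iff₀ hGD] at hE
    have h8 : min ε 1 ≤ ε := min_le_left _ _
    nlinarith

end Pool.Agent.L7h88.MW
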