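import Pool.Agent.L7h88.MW.FinB

/-! # Project MW: primes between consecutive squares, metric form, all windows at once -/

set_option autoImplicit false

namespace Pool.Agent.L7h88.MW

open Finset MeasureTheory Filter Topology
open Pool.Agent.N798.HS (Thin thin_mono)

/-- monotonicity in the window -/
lemma cntB_mono {t : ℕ} (α : Fin t → ℝ) (b : Fin t → ℤ) {u v u' v' : ℝ} (hu : u' ≤ u) (hv : v ≤ v') (N : ℕ) :
    cntB α b u v N ≤ cntB α b u' v' N := by
  classical
  unfold cntB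
  refine card_le_card fun k hk => ?_
  rw [mem_filter] at hk ⊢
  obtain ⟨h0, h1, h2, h3⟩ := hk
  refine ⟨h0, ?_⟩
  have hN : (0 : ℝ) ≤ N := Nat.cast_nonneg N
  refine ⟨?_, ?_, h3⟩
  · have : 2 * u' * N ≤ 2 * u * N := by nlinarith
    linarith
  · have : 2 * v * N ≤ 2 * v' * N := by nlinarith
    linarith

lemma thin_or {E E' : ℕ → Prop} (h : Thin E) (h' : Thin E') : Thin fun n => E n ∨ E' n := by
  classical
  intro K
  have h1 := (h K).add (h' K)
  rw [add_zero] at h1
  refine squeeze_zero' ?_ ?_ h1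
  · filter_upwards [eventually_ge_atTop 1] with N hN
    have : 0 ≤ Real.log (N:ℝ) := Real.log_nonneg (by exact_mod_cast hN)
    positivity
  · filter_upwards [eventually_ge_atTop 1] with N hN
    have hl : 0 ≤ Real.log (N:ℝ) := Real.log_nonneg (by exact_mod_cast hN)
    have h3 : #((Icc 1 N).filter fun n => E n ∨ E' n) ≤ #((Icc 1 N).filter E) + #((Icc 1 N).filter E') := by
      rw [filter_or]
      exact card_union_le _ _
    have h4 : (#((Icc 1 N).filter fun n => E n ∨ E' n) : ℝ) ≤ #((Icc 1 N).filter E) + #((Icc 1 N).filter E') := by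
      exact_mod_cast h3
    rw [← add_div, ← add_mul]
    apply div_le_div_of_nonneg_right _ (Nat.cast_nonneg N)
    have h5 := mul_le_mul_of_nonneg_right h4 (pow_nonneg hl K)
    refine le_trans (le_of_eq ?_) (h5.trans (le_of_eq ?_)) <;> congr!

/-- finite unions of thin sets -/
lemma thin_fin {ι : Type*} (s : Finset ι) (E : ι → ℕ → Prop) (h : ∀ i ∈ s, Thin (E i)) : Thin fun n => ∃ i ∈ s, E i n := by
  classical
  induction s using Finset.induction_on with
  | empty =>
    refine thin_mono (E' := fun _ => False) (Eventually.of_forall fun n hn => ?_) ?_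
    · obtain ⟨i, hi, -⟩ := hn
      simp at hi
    · intro K
      simp
  | insert a s ha ih =>
    have h1 := thin_or (h a (mem_insert_self _ _)) (ih fun i hi => h i (mem_insert_of_mem hi))
    refine thin_mono (Eventually.of_forall fun n hn => ?_) h1
    obtain ⟨i, hi, hE⟩ := hn
    rcases mem_insert.1 hi with rfl | hi
    · exact Or.inl hE
    · exact Or.inr ⟨i, hi, hE⟩

theorem resB (hG : S_GEN) (hP : S_PN2) (t : ℕ) : ∀ᵐ α : Fin t → ℝ, (∀ i, 0 < α i) → ∀ b : Fin t → ℤ, ∀ ε : ℝ, 0 < ε →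
    Thin fun N => ∃ u v : ℝ, 0 ≤ u ∧ u ≤ v ∧ v ≤ 1 ∧
      ε < |(cntB α b u v N : ℝ) / (2 * N / (2 * Real.log N) ^ (t + 1)) - (v - u)| := by
  classical
  filter_upwards [finB hG hP t] with α hα hpos b ε hε
  set e : ℝ := min ε 1 / 4 with he
  have he1 : 0 < min ε 1 := lt_min hε one_pos
  have he0 : 0 < e := by positivity
  have he2 : 4 * e ≤ ε := by have := min_le_left ε 1; linarith
  have he3 : e ≤ 1 / 4 := by have := min_le_right ε 1; linarith
  obtain ⟨m, hm⟩ := exists_nat_gt (2 / e)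
  have hm0 : (0 : ℝ) < m := lt_trans (by positivity) hm
  have hm1 : 1 ≤ m := by
    rcases Nat.eq_zero_or_pos m with h | h
    · rw [h] at hm0; simp at hm0
    · exact h
  have hme : 2 / (m : ℝ) ≤ e := by
    rw [div_le_iff₀ hm0]
    rw [div_lt_iff₀ he0] at hm
    nlinarith
  set S : Finset (ℕ × ℕ) := ((range (m + 1)) ×ˢ (range (m + 1))).filter fun p => p.1 < p.2 with hS
  have h1 : Thin fun N => ∃ p ∈ S, e < |(cntB α b ((((p.1 : ℕ) : ℚ) / m : ℚ) : ℝ) ((((p.2 : ℕ) : ℚ) / m : ℚ) : ℝ) N : ℝ) /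
      ((((((p.2 : ℕ) : ℚ) / m : ℚ) : ℝ) - ((((p.1 : ℕ) : ℚ) / m : ℚ) : ℝ)) * (2 * N) / (2 * Real.log N) ^ (t + 1)) - 1| := by
    refine thin_fin S _ fun p hp => ?_
    rw [hS, mem_filter, mem_product, mem_range, mem_range] at hp
    obtain ⟨⟨hp1, hp2⟩, hp3⟩ := hp
    have hmQ : (0 : ℚ) < m := by exact_mod_cast hm1
    refine hα hpos b _ _ (by positivity) ?_ ?_ e he0
    · exact div_lt_div_of_pos_right (by exact_mod_cast hp3) hmQ
    · rw [div_le_one hmQ]
      exact_mod_cast (by omega : p.2 ≤ m)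
  refine thin_mono ?_ h1
  filter_upwards [tlog.eventually_ge_atTop 1, eventually_ge_atTop 2] with N hlog hN hE
  obtain ⟨u, v, hu, huv, hv, hE⟩ := hE
  by_contra hcon
  push Not at hcon
  have hN0 : (0 : ℝ) < N := by exact_mod_cast (by omega : 0 < N)
  have hl : 0 < Real.log (N : ℝ) := by linarith
  set G : ℝ := 2 * N / (2 * Real.log N) ^ (t + 1) with hG
  have hG0 : 0 < G := by positivity
  have hgrid : ∀ i j : ℕ, i < j → j ≤ m → |(cntB α b ((i : ℝ) / m) ((j : ℝ) / m) N : ℝ) - ((j : ℝ) - i) / m * G| ≤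
      e * (((j : ℝ) - i) / m * G) := by
    intro i j hij hj
    have h2 := hcon (i, j) (by
      rw [hS, mem_filter, mem_product, mem_range, mem_range]
      exact ⟨⟨by omega, by omega⟩, hij⟩)
    simp only at h2
    push_cast at h2
    have hji : 0 < (j : ℝ) - i := by
      have : (i : ℝ) < j := by exact_mod_cast hij
      linarith
    have e1 : ((j : ℝ) / m - (i : ℝ) / m) * (2 * N) / (2 * Real.log N) ^ (t + 1) = ((j : ℝ) - i) / m * G := by
      rw [hG, ← sub_div]
      ring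
    rw [e1] at h2
    set H : ℝ := ((j : ℝ) - i) / m * G with hH
    have hH0 : 0 < H := by positivity
    have e2 : (cntB α b ((i : ℝ) / m) ((j : ℝ) / m) N : ℝ) / H - 1 = ((cntB α b ((i : ℝ) / m) ((j : ℝ) / m) N : ℝ) - H) / H := by
      field_simp
    rw [e2, abs_div, abs_of_pos hH0, div_le_iff₀ hH0] at h2
    exact h2
  set c : ℝ := (cntB α b u v N : ℝ) with hc
  have hum : 0 ≤ u * m := by positivity
  have hvm : 0 ≤ v * m := mul_nonneg (hu.trans huv) hm0.le
  -- upper bound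
  have hup : c / G - (v - u) ≤ ε := by
    have a1 : min ⌊u * m⌋₊ (m - 1) < min m (⌊v * m⌋₊ + 1) := by
      have : ⌊u * m⌋₊ ≤ ⌊v * m⌋₊ := Nat.floor_le_floor (mul_le_mul_of_nonneg_right huv hm0.le)
      omega
    have a2 := hgrid _ _ a1 (min_le_left _ _)
    have a3 : ((min ⌊u * m⌋₊ (m - 1) : ℕ) : ℝ) ≤ u * m :=
      le_trans (by exact_mod_cast min_le_left _ _) (Nat.floor_le hum)
    have a4 : u * m - 1 ≤ ((min ⌊u * m⌋₊ (m - 1) : ℕ) : ℝ) := by
      rcases min_choice ⌊u * m⌋₊ (m - 1) with h | h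
      · rw [h]
        have := Nat.lt_floor_add_one (u * m)
        linarith
      · rw [h, Nat.cast_sub hm1]
        push_cast
        nlinarith
    have a5 : v ≤ ((min m (⌊v * m⌋₊ + 1) : ℕ) : ℝ) / m := by
      rw [le_div_iff₀ hm0]
      rcases min_choice m (⌊v * m⌋₊ + 1) with h | h
      · rw [h]; nlinarith
      · rw [h]
        push_cast
        exact (Nat.lt_floor_add_one _).le
    have a6 : ((min m (⌊v * m⌋₊ + 1) : ℕ) : ℝ) ≤ v * m + 1 := by
      refine le_trans (by exact_mod_cast min_le_right _ _ : _ ≤ ((⌊v * m⌋₊ + 1 : ℕ) : ℝ)) ?_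
      push_cast
      linarith [Nat.floor_le hvm]
    set i := min ⌊u * m⌋₊ (m - 1)
    set j := min m (⌊v * m⌋₊ + 1)
    have a7 : c ≤ (cntB α b ((i : ℝ) / m) ((j : ℝ) / m) N : ℝ) := by
      have h3 : (i : ℝ) / m ≤ u := by rw [div_le_iff₀ hm0]; exact a3
      exact Nat.cast_le.2 (cntB_mono α b h3 a5 N)
    have a8 : ((j : ℝ) - i) / m ≤ v - u + 2 / m := by
      rw [div_le_iff₀ hm0, add_mul, div_mul_cancel₀ _ hm0.ne']
      nlinarith
    have a9 : c ≤ (1 + e) * ((v - u + 2 / m) * G) := by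
      have := (abs_le.1 a2).2
      have h3 : ((j : ℝ) - i) / m * G ≤ (v - u + 2 / m) * G := mul_le_mul_of_nonneg_right a8 hG0.le
      nlinarith
    have a10 : c / G ≤ (1 + e) * (v - u + 2 / m) := by
      rw [div_le_iff₀ hG0]
      linarith
    have a11 : v - u ≤ 1 := by linarith
    have a12 : 0 ≤ v - u := by linarith
    nlinarith
  have hlow : -ε ≤ c / G - (v - u) := by
    rcases Nat.lt_or_ge ⌈u * m⌉₊ ⌊v * m⌋₊ with h | h
    · have b1 : ⌊v * m⌋₊ ≤ m := by
        have h3 : v * m ≤ (m : ℝ) := by nlinarith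
        have := Nat.floor_le_floor h3
        rwa [Nat.floor_natCast] at this
      have b2 := hgrid _ _ h b1
      have b3 : (cntB α b ((⌈u * m⌉₊ : ℝ) / m) ((⌊v * m⌋₊ : ℝ) / m) N : ℝ) ≤ c := by
        have h3 : u ≤ (⌈u * m⌉₊ : ℝ) / m := by rw [le_div_iff₀ hm0]; exact Nat.le_ceil _
        have h4 : (⌊v * m⌋₊ : ℝ) / m ≤ v := by rw [div_le_iff₀ hm0]; exact Nat.floor_le hvm
        exact Nat.cast_le.2 (cntB_mono α b h3 h4 N)
      have b4 : v - u - 2 / m ≤ ((⌊v * m⌋₊ : ℝ) - ⌈u * m⌉₊) / m := by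
        rw [le_div_iff₀ hm0, sub_mul, div_mul_cancel₀ _ hm0.ne']
        have h3 := Nat.lt_floor_add_one (v * m)
        have h4 := Nat.ceil_lt_add_one hum
        nlinarith
      have b5 := (abs_le.1 b2).1
      have b6 : (1 - e) * ((v - u - 2 / m) * G) ≤ c := by
        have h3 : (v - u - 2 / m) * G ≤ ((⌊v * m⌋₊ : ℝ) - ⌈u * m⌉₊) / m * G := mul_le_mul_of_nonneg_right b4 hG0.le
        nlinarith
      have b7 : (1 - e) * (v - u - 2 / m) ≤ c / G := by
        rw [le_div_iff₀ hG0]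
        linarith
      have a11 : v - u ≤ 1 := by linarith
      have a12 : 0 ≤ v - u := by linarith
      have a13 : 0 < 2 / (m : ℝ) := by positivity
      nlinarith
    · have b1 : v - u ≤ 2 / m := by
        rw [le_div_iff₀ hm0]
        have h3 := Nat.lt_floor_add_one (v * m)
        have h4 := Nat.ceil_lt_add_one hum
        have h5 : (⌊v * m⌋₊ : ℝ) ≤ ⌈u * m⌉₊ := by exact_mod_cast h
        nlinarith
      have b2 : 0 ≤ c / G := by positivity
      linarith
  exact absurd hE (not_lt.2 (abs_le.2 ⟨hlow, hup⟩))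

end Pool.Agent.L7h88.MW
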