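import Mathlib
import Pool.Agent.N798.H.Fin
import Pool.Agent.Y957.VK.Stm3

/-!
# Project MW (helper88): prime values of almost all multiples in windows of length `√x`

Goal (library theorem `S_GEN`): for almost every `(α_1, …, α_k)` in the positive orthant and all integers `b_i`, in almost all
WINDOWS `(M_n, M_n + R_n]` of length `R_n ≥ √M_n / (log n)^C` and for ARBITRARY subsets, all the `⌊α_i u⌋ + b_i` are primes for the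
expected number of the `u` in the subset. Known (project HS, helper798): windows `(1, n]`. Applications (hand-ins):
(1) MP_61a569_nt, metric form, for ALMOST ALL odd `n` (the starting result MetricTotientSums: a positive proportion of the `n`);
(2) MP_e94e4b_nt: for almost every `α` and all `b`, almost all `N`: `N² + k + 1` and `⌊α ((N+1)² - k)⌋ + b` are primes for
`≥ c N / (log N)²` of the `k ≤ 2 N`, with an asymptotic formula relative to the number of primes between the squares.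

Method: by Plancherel for the multiplicative group the mean square over `α` of `∑_{u in the window} g_u (1_P(⌊αu⌋ + b) - 1/log)` is
controlled by the LOCAL mean squares `∫_x^{x+L} |∑_{n ~ N} (1_P(n) - 1/log n) n^{-iη}|² dη`, `L = N/R ≤ √N (log N)^C`, for all
`|x| ≤ N (log N)^C`; these are small by Vaughan's identity and Vinogradov-Korobov (`Loc`).

Every statement is a `Prop` with a complete proof in its docstring; constants may be changed freely inside the proofs.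
Available (all proved, see `Pool/Agent/N798/S2/All.lean`, `Pool/Agent/N31/T/WP.lean`): `Pool.Agent.Y957.VK.lam_all : Neg lamw`
(`lamw n = Λ(n) - 1`; `Neg g`: `|∑_{n ≤ N} g(n) n^{iτ}| ≤ C N/(log N)^K` for `|τ| ≤ N^A`), `Pool.Agent.Y957.VK.mob_all` (the same for `μ`),
`Pool.Agent.N31.T.lam_ioc`, `Pool.Agent.N765.T.wo : S_WO` (so `wo.tw` for the constant function), `Pool.Agent.Q53.CR.sdb : S_SDB`
(second derivative test for `∑ n^{-it}`), `Pool.Agent.H469R2.NK.kusmin_landau_mono / _anti`.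
-/

set_option autoImplicit false

namespace Pool.Agent.L7h88.MW

open Finset MeasureTheory Filter Topology
open scoped ENNReal
open Pool.Agent.H376R2.MR (er)
open Pool.Agent.N798.T (vl)
open Pool.Agent.N798.HS (Fp Mp Thin S_PRD S_EX)
open Pool.Agent.Y957.VK (lamw)

/-- the Dirichlet polynomial `∑_{n ∈ s} f(n) n^{-iη}` (`er τ x = e^{iτx}`) -/
noncomputable def DS (f : ℕ → ℂ) (s : Finset ℕ) (η : ℝ) : ℂ := ∑ n ∈ s, f n * er (-η) (Real.log n)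

/-! ### General tools -/

/-- **MVT** (mean value theorem). Proof. `T = L + M ≥ 1`, `g n = f n * er (-x) (log n)`, so `DS f s (x + η) = DS g s η` and the left side is
`∫_0^L |DS g|² ≤ 2 T² ∫_ℝ |DS g s η|² / (T² + η²) dη`. With the kernel `Ek T` of `Pool/Agent/N798/H/PL2.lean` (`Ek_four`, `Ek_lint`, and the lemma `key`
inside of the proof of `pl2`, which is valid for any finite family of coefficients) Plancherel gives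
`∫ |∑ g_n n^{-2πiξ}|² / (T² + (2πξ)²) dξ = ∫ |∑ g_n Ek T (u + log n)|² du` (for `+` instead of `-` conjugate the coefficients), and by Cauchy-Schwarz and
`pt` (`∑ ‖Ek T (u + log n)‖ ≤ 2` as `M ≤ T`) the integrand is `≤ 2 ∑ |g_n|² ‖Ek T (u + log n)‖`, integral `≤ (2/T) ∑ |g_n|²`. Total `≤ 8 π T ∑ |f n|²`. -/
def S_MVT : Prop := ∃ C : ℝ, 1 ≤ C ∧ ∀ (f : ℕ → ℂ) (s : Finset ℕ) (M x L : ℝ), 1 ≤ M → (∀ n ∈ s, 1 ≤ n ∧ (n : ℝ) ≤ M) → 0 ≤ L →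
  ∫ η in x..(x + L), ‖DS f s η‖ ^ 2 ≤ C * (L + M) * ∑ n ∈ s, ‖f n‖ ^ 2

/-- **ABL** (partial summation in the mean square). Proof. Abel: with `S_m = DS f (Ioc N1 m) η`,
`∑_{n ∈ Ioc N1 N2} W n η f(n) n^{-iη} = W N2 η S_{N2} - ∑_{N1 < n < N2} (W (n+1) η - W n η) S_n`. By Cauchy-Schwarz with the weights `B0`, `ρ n` the square of the
norm is `≤ (B0 + B1) (B0 |S_{N2}|² + ∑ ρ n |S_n|²)`; integrate (all functions of `η` are continuous). -/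
def S_ABL : Prop := ∀ (f : ℕ → ℂ) (W : ℕ → ℝ → ℂ) (ρ : ℕ → ℝ) (N1 N2 : ℕ) (x L B0 B1 E : ℝ), N1 ≤ N2 → 0 ≤ L → 0 ≤ B0 → 0 ≤ E →
  (∀ n, 0 ≤ ρ n) → (∀ n, Continuous (W n)) → (∀ n ∈ Ioc N1 N2, ∀ η ∈ Set.Icc x (x + L), ‖W n η‖ ≤ B0) →
  (∀ n, N1 < n → n < N2 → ∀ η ∈ Set.Icc x (x + L), ‖W (n + 1) η - W n η‖ ≤ ρ n) → ∑ n ∈ Ioc N1 N2, ρ n ≤ B1 →
  (∀ m, N1 ≤ m → m ≤ N2 → ∫ η in x..(x + L), ‖DS f (Ioc N1 m) η‖ ^ 2 ≤ E) →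
  ∫ η in x..(x + L), ‖∑ n ∈ Ioc N1 N2, W n η * (f n * er (-η) (Real.log n))‖ ^ 2 ≤ (B0 + B1) ^ 2 * E

/-! ### Pointwise bounds -/

/-- **SAV**. Proof. `μ`: `mob_all` (difference of the sums up to `N'` and up to `N`). `Λ = lamw + 1`: `lam_ioc lam_all` and `wo.tw` (this one needs
`|η| ≥ (log N)^K`). -/
def S_SAV : Prop := ∀ A : ℕ, ∃ (C : ℝ) (K N0 : ℕ), 0 ≤ C ∧ ∀ (N N' : ℕ) (η : ℝ), N0 ≤ N → N ≤ N' → N' ≤ 2 * N →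
  Real.log N ^ K ≤ |η| → |η| ≤ (N : ℝ) ^ 30 →
  ‖DS (fun n => ((ArithmeticFunction.moebius n : ℤ) : ℂ)) (Ioc N N') η‖ ≤ C * N / Real.log N ^ A ∧
  ‖DS (fun n => ((ArithmeticFunction.vonMangoldt n : ℝ) : ℂ)) (Ioc N N') η‖ ≤ C * N / Real.log N ^ A

/-- **ZS**. Proof. Cut `(N, N']` into at most 7 blocks `(a, a']`, `a' ≤ 2 a`. If `|η| ≤ a`: Kusmin-Landau for `x_n = -(η/2π) log (a + 1 + n)` (differences
of one sign, monotone, absolute value between `|η|/(4π(a+1))` and `|η|/(2πa) ≤ 1/2`): `≤ C a/|η|`. If `|η| > a`: `sdb` with `β = 0`: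
`≤ C (√|η| + a/√|η|)(1 + log a) ≤ 2 C √|η| (1 + log a)`. The second bound by partial summation with `log n`. -/
def S_ZS : Prop := ∃ C : ℝ, 1 ≤ C ∧ ∀ (N N' : ℕ) (η : ℝ), 1 ≤ N → N ≤ N' → N' ≤ 16 * N + 16 → 1 ≤ |η| →
  ‖DS (fun _ => 1) (Ioc N N') η‖ ≤ C * (N / |η| + √|η|) * (1 + Real.log N) ∧
  ‖DS (fun n => (Real.log n : ℂ)) (Ioc N N') η‖ ≤ C * (N / |η| + √|η|) * (1 + Real.log N) ^ 2

/-- **TI** (`S_ZS → S_TI`; type I sums). Proof. `n = d e`: the first sum is `∑_{d ≤ V} c d er (-η) (log d) DS 1 (Ioc (N1/d) (N2/d)) η` (natural division),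
the second one the same with `log e`. `N1/d ≥ N^{0.8} ≥ 1` and `N2/d ≤ 16 (N1/d) + 16`. By ZS `≤ ∑_d |c d| C (N1/(d|η|) + √|η|)(1 + log N1)² ≤
C' (log N)^4 N/|η| + N^{1/10} √(N (log N)^C) C' (log N)^3`. -/
def S_TI : Prop := ∀ C : ℕ, ∃ (D : ℝ) (K N0 : ℕ), 0 ≤ D ∧ ∀ (N N1 N2 V : ℕ) (η : ℝ) (c : ℕ → ℂ), N0 ≤ N → N ≤ N1 → N1 ≤ N2 →
  N2 ≤ 16 * N → (V : ℝ) ≤ (N : ℝ) ^ (1 / 10 : ℝ) → (∀ d ∈ Icc 1 V, ‖c d‖ ≤ Real.log N) → 1 ≤ |η| → |η| ≤ N * Real.log N ^ C →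
  ‖DS (fun n => ∑ d ∈ n.divisors.filter (fun d => d ≤ V), c d) (Ioc N1 N2) η‖ ≤ D * Real.log N ^ K * (N / |η| + (N : ℝ) ^ (0.65 : ℝ)) ∧
  ‖DS (fun n => ∑ d ∈ n.divisors.filter (fun d => d ≤ V), c d * (Real.log ((n / d : ℕ) : ℝ) : ℂ)) (Ioc N1 N2) η‖ ≤
    D * Real.log N ^ K * (N / |η| + (N : ℝ) ^ (0.65 : ℝ))

/-! ### Type II sums -/

/-- `∑_{d k ∣ n, d > V, k > V} μ(d) Λ(k)` -/
noncomputable def bV (V n : ℕ) : ℂ := ∑ d ∈ n.divisors.filter (fun d => V < d), ((ArithmeticFunction.moebius d : ℤ) : ℂ) *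
  ∑ k ∈ (n / d).divisors.filter (fun k => V < k), ((ArithmeticFunction.vonMangoldt k : ℝ) : ℂ)

/-- `∑_{d ∣ m, d ≤ V, m/d ≤ V} μ(d) Λ(m/d)` -/
noncomputable def cV (V m : ℕ) : ℂ := ∑ d ∈ m.divisors.filter (fun d => d ≤ V ∧ m / d ≤ V),
  ((ArithmeticFunction.moebius d : ℤ) : ℂ) * ((ArithmeticFunction.vonMangoldt (m / d) : ℝ) : ℂ)

/-- the ratio of the boxes -/
noncomputable def kap (N B : ℕ) : ℝ := 1 + 1 / Real.log N ^ B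

/-- the grid -/
noncomputable def gr (N B i : ℕ) : ℕ := ⌊kap N B ^ i⌋₊

/-- the number of the boxes in one direction -/
noncomputable def nb (N B : ℕ) : ℕ := ⌈2 * Real.log (32 * N) * Real.log N ^ B⌉₊

/-- the factor with `μ`, over the `d` with `κ^i < d ≤ κ^{i+1}`, `d > V` -/
noncomputable def PM (N B V i : ℕ) (η : ℝ) : ℂ :=
  DS (fun n => ((ArithmeticFunction.moebius n : ℤ) : ℂ)) ((Ioc (gr N B i) (gr N B (i + 1))).filter (fun d => V < d)) η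

/-- the factor with `Λ` -/
noncomputable def PQ (N B V j : ℕ) (η : ℝ) : ℂ :=
  DS (fun n => ((ArithmeticFunction.vonMangoldt n : ℝ) : ℂ)) ((Ioc (gr N B j) (gr N B (j + 1))).filter (fun d => V < d)) η

/-- the smooth factor, `N1/κ^h < e ≤ N2/κ^h` -/
noncomputable def PE (N B N1 N2 h : ℕ) (η : ℝ) : ℂ := DS (fun _ => 1) (Ioc ⌊(N1 : ℝ) / kap N B ^ h⌋₊ ⌊(N2 : ℝ) / kap N B ^ h⌋₊) η

/-- **VAU** (Vaughan's identity). Proof. `Λ = Λ_{≤V} + μ_{≤V} * log - μ_{≤V} * Λ_{≤V} * 1 + μ_{>V} * Λ_{>V} * 1` (Dirichlet convolutions; from `μ * 1 = δ`, `Λ * 1 = log`),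
and `Λ_{≤V}(n) = 0` for `n > V`. The third term: `∑_{m ∣ n} cV V m`, and `cV V m = 0` for `m > V²`. Second claim: `|cV V m| ≤ ∑_{d ∣ m} Λ(m/d) = log m`.
(Vaughan's identity is in the library in several forms; it can also be proved directly with `ArithmeticFunction`.) -/
def S_VAU : Prop := (∀ V n : ℕ, 1 ≤ V → V < n → ((ArithmeticFunction.vonMangoldt n : ℝ) : ℂ) =
    ∑ d ∈ n.divisors.filter (fun d => d ≤ V), ((ArithmeticFunction.moebius d : ℤ) : ℂ) * (Real.log ((n / d : ℕ) : ℝ) : ℂ) -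
      ∑ m ∈ n.divisors.filter (fun m => m ≤ V * V), cV V m + bV V n) ∧
  ∀ V m : ℕ, 1 ≤ m → ‖cV V m‖ ≤ Real.log m

/-- **BOX** (`S_MVT → S_SAV → S_BOX`; one box). Proof. `l = log N`, `κ = kap N B ∈ (1, 2]` for large `N`. If `PM = 0`, `PQ = 0` or `PE = 0` identically (empty ranges)
nothing is to be proved. Otherwise `κ^{i+1} > V`, `κ^{j+1} > V`, `κ^{i+j} ≤ N2 ≤ 16 N`. Let `a = max V (gr i)`, so `PM` is the sum over `Ioc a (gr (i+1))`,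
`gr (i+1) ≤ 2 a` (or split into two such blocks), `log a ≥ l/21`, `a ≤ 2 κ^i`; the same for `a' = max V (gr j)`.
(1) `a ≤ √N`. By SAV `|PM| ≤ C a/(log a)^{A'} ≤ C' a/l^{A'}` on the interval (`|η| ≤ N l^C ≤ N^{1.1} ≤ V^{30}`, `|η| ≥ l^K`). The product `PQ PE` is one Dirichlet polynomial `∑ c_m m^{-iη}`,
`c_m = ∑_{k e = m} Λ(k)` (over the ranges), `0 ≤ c_m ≤ ∑_{k ∣ m} Λ(k) = log m`, supported in `m ≤ κ^{j+1} N2/κ^{i+j} ≤ 32 N/κ^i ≤ 64 N/a`. MVT: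
`∫ |PQ PE|² ≤ C (L + 64 N/a)(64 N/a)(3 l)²`. Product `≤ C a² l^{-2A'} (√N l^C + 64 N/a)(64 N/a) l² ≤ C' (a √N · N l^C + N²) l^{2 - 2A'}/1 ≤ C'' N² l^{C + 2 - 2A'}`.
(2) `a > √N`: then `κ^i ≥ a/2 > √N/2` and `κ^j ≤ 16 N/κ^i ≤ 32 √N`, `a' ≤ 32 √N + V ≤ 33 √N`. By SAV `|PQ| ≤ C' a'/l^{A'}`, and `PM PE = ∑ c_m m^{-iη}`, `|c_m| ≤ τ(m)`, `m ≤ 64 N/a'`,
`∑_{m ≤ M} τ(m)² ≤ C M (1 + log M)³`. The same computation. Choose `A' = A + C + 5`. -/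
def S_BOX : Prop := ∀ A C B : ℕ, ∃ (D : ℝ) (K N0 : ℕ), 0 ≤ D ∧ ∀ (N N1 N2 V i j : ℕ) (x L : ℝ), N0 ≤ N → N ≤ N1 → N1 ≤ N2 →
  N2 ≤ 16 * N → (N : ℝ) ^ (1 / 21 : ℝ) ≤ V → (V : ℝ) ≤ (N : ℝ) ^ (1 / 10 : ℝ) → 0 ≤ L → L ≤ √(N : ℝ) * Real.log N ^ C →
  (∀ η ∈ Set.Icc x (x + L), Real.log N ^ K ≤ |η| ∧ |η| ≤ N * Real.log N ^ C) →
  ∫ η in x..(x + L), ‖PM N B V i η * PQ N B V j η * PE N B N1 N2 (i + j) η‖ ^ 2 ≤ D * N ^ 2 / Real.log N ^ A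

/-- **DEC** (decomposition into boxes). Proof. Expand: `DS (bV V) (Ioc N1 N2) η = ∑ μ(d) Λ(k) (d k e)^{-iη}` over `d, k > V`, `e ≥ 1`, `N1 < d k e ≤ N2` (for `n ≥ 1`: `d ∣ n`, `k ∣ n/d`,
`e = n/(d k)`). Every `d ∈ (1, 16 N]` lies in exactly one `(κ^i, κ^{i+1}]`, `i < nb N B` (`κ^{nb} ≥ 32 N` because `log κ ≥ 1/(2 l^B)` for large `N`, `B ≥ 1`), that is in exactly one `Ioc (gr i) (gr (i+1))`; the same
for `k`. For `d`, `k` in the boxes `i`, `j`: `κ^{i+j} < d k ≤ κ^{i+j+2}`. If `N1/κ^{i+j} < e` then `N1 < d k e`; if `N1 < d k e` and `e ≤ N1/κ^{i+j}` then `d k e ≤ κ² N1`; the same with `N2`.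
So the sum of the box products is `DS (bV V) (Ioc N1 N2) η` minus the sum over the triples with `n = d k e ∈ (N1, κ² N1]`, `e ≤ N1/κ^{i+j}` (`n ≤ N2`) plus the sum over the triples with `n ∈ (N2, κ² N2]`,
`e ≤ N2/κ^{i+j}`, (triples with `N1 < dke ≤ N2`, `e ≤ N1/κ^{i+j}` are missing, triples with `dke > N2`, `e ≤ N2/κ^{i+j}` are superfluous; if `e ≤ N1/κ^{i+j}` they are not in the box at all). Hence the difference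
is `DS r`, `r n` a sum of `± μ(d) Λ(k)` over some of the triples with product `n`, `|r n| ≤ ∑_{d ∣ n} ∑_{k ∣ n/d} Λ(k) ≤ τ(n) log n`. `κ² N2 ≤ 64 N` for large `N`. -/
def S_DEC : Prop := ∀ B : ℕ, 1 ≤ B → ∃ N0 : ℕ, ∀ (N N1 N2 V : ℕ), N0 ≤ N → N ≤ N1 → N1 ≤ N2 → N2 ≤ 16 * N → 1 ≤ V →
  ∃ r : ℕ → ℂ, (∀ n, ‖r n‖ ≤ (n.divisors.card : ℝ) * Real.log n) ∧
    (∀ n, r n ≠ 0 → ((N1 : ℝ) < n ∧ (n : ℝ) ≤ kap N B ^ 2 * N1) ∨ ((N2 : ℝ) < n ∧ (n : ℝ) ≤ kap N B ^ 2 * N2)) ∧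
    ∀ η : ℝ, DS (bV V) (Ioc N1 N2) η =
      ∑ i ∈ range (nb N B), ∑ j ∈ range (nb N B), PM N B V i η * PQ N B V j η * PE N B N1 N2 (i + j) η + DS r (Icc 1 (64 * N)) η

/-- **ERR** (divisors in short intervals). Proof. `(τ(n) log n)² ≤ 4 l² τ(n)²` and by Cauchy-Schwarz `∑ τ² ≤ (number of n)^{1/2} (∑_{n ≤ 64 N} τ(n)^4)^{1/2} ≤
(1 + 48 N/l^B)^{1/2} (C N l^{15})^{1/2}` (`κ² - 1 ≤ 3/l^B`); take `B0 = 2 A + 20`. (Moments of the divisor function are in the library; any power of the logarithm is enough.) -/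
def S_ERR : Prop := ∀ A : ℕ, ∃ B0 : ℕ, ∀ B : ℕ, B0 ≤ B → ∃ (D : ℝ) (N0 : ℕ), 0 ≤ D ∧ ∀ N N' : ℕ, N0 ≤ N → N ≤ N' → N' ≤ 16 * N →
  ∑ n ∈ (Icc 1 (64 * N)).filter (fun n : ℕ => (N' : ℝ) < n ∧ (n : ℝ) ≤ kap N B ^ 2 * N'), ((n.divisors.card : ℝ) * Real.log n) ^ 2 ≤
    D * N / Real.log N ^ A

/-- **TII** (`S_MVT → S_BOX → S_DEC → S_ERR → S_TII`). Proof. `B = B0 (A + 2) + 1` from ERR; `nb N B ≤ 10 l^{B+1}`; by Cauchy-Schwarz the double sum over the boxes contributes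
`≤ 2 nb² ∑_{i,j} ∫ |box|² ≤ 2 nb⁴ D N²/l^{A'}` (BOX with `A' = A + 4 B + 4`, `C`, `B`), and `2 ∫ |DS r|² ≤ 2 C (L + 64 N) ∑ |r n|² ≤ C' N · N/l^{A+2}` by MVT and ERR for `N' = N1, N2`. -/
def S_TII : Prop := ∀ A C : ℕ, ∃ (D : ℝ) (K N0 : ℕ), 0 ≤ D ∧ ∀ (N N1 N2 V : ℕ) (x L : ℝ), N0 ≤ N → N ≤ N1 → N1 ≤ N2 →
  N2 ≤ 16 * N → (N : ℝ) ^ (1 / 21 : ℝ) ≤ V → (V : ℝ) ≤ (N : ℝ) ^ (1 / 10 : ℝ) → 0 ≤ L → L ≤ √(N : ℝ) * Real.log N ^ C →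
  (∀ η ∈ Set.Icc x (x + L), Real.log N ^ K ≤ |η| ∧ |η| ≤ N * Real.log N ^ C) →
  ∫ η in x..(x + L), ‖DS (bV V) (Ioc N1 N2) η‖ ^ 2 ≤ D * N ^ 2 / Real.log N ^ A

/-! ### Local mean squares of the primes -/

/-- local mean squares are small: windows of length `√N (log N)^C` anywhere in `|η| ≤ N (log N)^C` -/
def Loc (f : ℕ → ℂ) : Prop := ∀ A C : ℕ, ∃ (D : ℝ) (N0 : ℕ), 0 ≤ D ∧ 2 ≤ N0 ∧ ∀ (N N1 N2 : ℕ) (x L : ℝ), N0 ≤ N → N ≤ N1 →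
  N1 ≤ N2 → N2 ≤ 16 * N → 0 ≤ L → L ≤ √(N : ℝ) * Real.log N ^ C → |x| ≤ N * Real.log N ^ C →
  ∫ η in x..(x + L), ‖DS f (Ioc N1 N2) η‖ ^ 2 ≤ D * N ^ 2 / Real.log N ^ A

/-- **LL** (`S_TI → S_TII → S_VAU → S_ZS → S_LL`). Proof. Let `K` be the exponent of TII (for `A`, `C + 1`), `K1` that of TI (`C + 1`), `T1 = l^{K2}`, `K2 = K + 2 K1 + A + 4`.
(1) The part of `[x, x + L]` in `|η| ≤ T1`: by `lam_all` (difference of two sums) `|DS lamw| ≤ C N/l^{A + K2}` there (`|η| ≤ T1 ≤ N`), contribution `≤ 2 T1 C² N²/l^{2A + 2 K2}`. (2) The rest is contained in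
at most two intervals `[x', x' + L']` with `|η| ≥ T1` and `|η| ≤ N l^{C+1}`. `V = ⌊N^{1/20}⌋`; by VAU `lamw n = (type I with log, c = μ) - (type I with V² for V, c = cV V) + bV V n - 1` for `n > V`. The square
of the sum of four terms is `≤ 4 ∑`. Type I: `≤ D l^{K1} (N/|η| + N^{0.65})` (`V² ≤ N^{1/10}`, `|cV V m| ≤ log m ≤ log N`), the integral of the square is `≤ 2 D² l^{2 K1} (2 N²/T1 + N^{1.3} L)`
(`∫_{|η| ≥ T1} η^{-2} = 2/T1`). The constant `1`: ZS, `≤ C (N/|η| + √|η|)(1 + l)`, the square integrated `≤ C l² (N²/T1 + N l^{C+1} L)`. -/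
def S_LL : Prop := Loc lamw

/-- `1_P(n) - 1/log n` -/
noncomputable def pw (n : ℕ) : ℂ := (if n.Prime then 1 else 0) - ((1 / Real.log n : ℝ) : ℂ)

/-- **LP** (`S_ABL → S_MVT → S_LL → S_LP`). Proof. For `n ≥ 2`: `Λ(n)/log n = 1_P(n) + r(n)`, `0 ≤ r(n) ≤ 1`, `r(n) ≠ 0` only for proper prime powers; so `pw n = lamw n/log n - r n`. First term: ABL with
`W n η = 1/log n` (`B0 = 2`, `ρ n = 1/log n - 1/log (n+1)`, `B1 = 2`) and LL. Second term: MVT and at most `C √N l` proper prime powers `≤ 16 N`: `≤ C (L + 16 N) √N l ≤ N^{1.6}`. -/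
def S_LP : Prop := Loc pw

/-- the weight on the logarithmic scale: `1_P(⌊e^y⌋ + b) - 1/y` -/
noncomputable def hw (b : ℤ) (y : ℝ) : ℂ := (if (vl b (Real.exp y)).Prime then 1 else 0) - ((1 / y : ℝ) : ℂ)

/-- **FTL** (`S_ABL → S_LP → S_FTL`). Proof. Let `m` run over the integers with `[log m, log (m+1)]` inside of `[y1, y2]`; the at most two incomplete pieces contribute `O(e^{-Y})` to the inner integral, and for `y` in a complete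
piece `|1/y - 1/log (m + b)| ≤ C_b e^{-Y}`, total error `O(e^{-Y})`, whose square times `L ≤ e^{Y/2} Y^C` is small. What is left is `∑_m (1_P(m+b) - 1/log (m+b)) m^{-iη} w_m(η)`, `w_m(η) = ∫_0^{log(1 + 1/m)} e^{-iηv} dv`. With `n = m + b`:
`= ∑_n pw n n^{-iη} W_n(η)`, `W_n(η) = e^{-iη log((n - b)/n)} w_{n-b}(η)`, `‖W_n‖ ≤ 2 e^{-Y}`, `‖W_{n+1} - W_n‖ ≤ C_b (1 + |η|/n)/n² ≤ C Y^{C+1} e^{-2Y}` (difference of the phases `≤ |η| |log((n+1-b)/(n+1)) - log((n-b)/n)| ≤ C_b |η|/n²`, times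
`2/n`; difference of the lengths of the ranges of integration `≤ 2/n²`). ABL with `N = ⌊e^Y⌋ - |b| - 1` (range of `n`: in `[N, e^{Y+2} + |b|] ⊂ [N, 16 N]`), `B0 = 2 e^{-Y}`, `B1 = C Y^{C+1} e^{-Y}`, `E = D N²/(log N)^{A'}` from LP with `A' = A + 2 C + 2`, `C + 1`. -/
def S_FTL : Prop := ∀ (b : ℤ) (A C : ℕ), ∃ D Y0 : ℝ, 0 ≤ D ∧ 1 ≤ Y0 ∧ ∀ Y y1 y2 x L : ℝ, Y0 ≤ Y → Y ≤ y1 → y1 ≤ y2 → y2 ≤ Y + 2 →
  0 ≤ L → L ≤ Real.exp (Y / 2) * Y ^ C → |x| ≤ Real.exp Y * Y ^ C →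
  ∫ η in x..(x + L), ‖∫ y in y1..y2, hw b y * er (-η) y‖ ^ 2 ≤ D / Y ^ A

/-- **FTT** (`S_MVT → S_FTT`; high frequencies). Proof. The step function `y ↦ 1_P(⌊e^y⌋ + b)` on `[y1, y2]` is `∑_m a_m` on `[log m, log (m+1))`; integrating the exponential,
`∫ = (1/(-iη)) (∑_m c_m m^{-iη} + boundary terms at y1, y2)`, `c_m ∈ {-1, 0, 1}` the differences `a_{m-1} - a_m` (or so), `1 ≤ m ≤ e^{Y+2}`, boundary terms `≤ 2`. The square of the norm is `≤ (2/T²)(|DS c|² + 4)`, MVT: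
`∫ |DS c|² ≤ C (L + e^{Y+2}) e^{Y+2}`. The part `∫ e^{-iηy}/y dy` is `≤ 4/|η|` (integrate by parts). See also `Pool/Agent/N539/T/FD.lean`. -/
def S_FTT : Prop := ∀ b : ℤ, ∃ C : ℝ, 0 ≤ C ∧ ∀ Y y1 y2 x L T : ℝ, 1 ≤ Y → Y ≤ y1 → y1 ≤ y2 → y2 ≤ Y + 2 → 0 ≤ L → 0 < T →
  (∀ η ∈ Set.Icc x (x + L), T ≤ |η|) →
  ∫ η in x..(x + L), ‖∫ y in y1..y2, hw b y * er (-η) y‖ ^ 2 ≤ C * (L + Real.exp Y) * Real.exp Y / T ^ 2

/-! ### From the frequencies to the multipliers -/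

/-- **PL3** (Plancherel for windows; adapt `pl2` in `Pool/Agent/N798/H/PL2.lean`). Proof. As there the left side is `∫ ‖D(2πξ)‖² ‖𝓕 H(ξ)‖² dξ`, `D(η) = ∑ g_n e^{iη (s0 + log n)}`, `𝓕 H (ξ) = ∫ H y er (-2πξ) y dy =: h(2πξ)`. Let `w_n = log (n/M) ∈ [0, δ]`,
`g'_n = g_n (1 + (w_n/δ)²)`, `|g'_n| ≤ 2`, `D'` the sum with `g'`. As `∫ (δ/2) e^{-δ|v|} e^{-ivw} dv = 1/(1 + (w/δ)²)`, `D(η) = ∫ (δ/2) e^{-δ|v|} e^{iv(s0 + log M)} D'(η - v) dv`, so by Cauchy-Schwarz `|D(η)|² ≤ ∫ (δ/2) e^{-δ|v|} |D'(η - v)|² dv`, and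
(Tonelli) `∫ |D|² |h|² dη ≤ ∫ |D'(ζ)|² K(ζ) dζ`, `K(ζ) = ∫ (δ/2) e^{-δ|v|} |h(ζ + v)|² dv ≤ (δ/2) ∑_{k ∈ ℤ} e^{1 - |k|} ∫_{ζ + k/δ}^{ζ + (k+1)/δ} |h|² ≤ (δ/2) ∑_k e^{1-|k|} B/(T² + (ζ + k/δ)²) ≤ C δ B/(T² + ζ²)`, because
`T² + ζ² ≤ 2 (1 + k²)(T² + (ζ + k/δ)²)` (`1/δ ≤ T`). Finally `∫ |D'(ζ)|²/(T² + ζ²) dζ ≤ C #s/T` by the comparison kernel `Ek T` exactly as in `pl2` (`‖g'‖ ≤ 2`, `n ≤ 2 M ≤ T`). -/
def S_PL3 : Prop := ∃ C : ℝ, 1 ≤ C ∧ ∀ (s : Finset ℕ) (M δ : ℝ), 1 ≤ M → 0 < δ → δ ≤ 1 → (∀ n ∈ s, M ≤ (n : ℝ) ∧ (n : ℝ) ≤ M * (1 + δ)) →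
  ∀ g : ℕ → ℂ, (∀ n, ‖g n‖ ≤ 1) → ∀ H : ℝ → ℂ, Measurable H → (∀ y, ‖H y‖ ≤ 2) → ∀ Y R : ℝ, 0 ≤ R →
  (∀ y, y ∉ Set.Icc Y (Y + R) → H y = 0) → ∀ T B : ℝ, 2 * M ≤ T → 1 / δ ≤ T → 0 ≤ B →
  (∀ x : ℝ, ∫⁻ η in Set.Icc x (x + 1 / δ), ‖∫ y, H y * er (-η) y‖ₑ ^ 2 ≤ ENNReal.ofReal (B / (T ^ 2 + x ^ 2))) →
  ∀ s0 : ℝ, ∫⁻ u, ‖∑ n ∈ s, g n * H (u + (s0 + Real.log n))‖ₑ ^ 2 ≤ ENNReal.ofReal (C * δ * B * s.card / T)

/-- **SW** (`S_PL3 → S_FTL → S_FTT → S_SW`; one factor, windows; compare `Pool/Agent/N164/HS/SC.lean`). Proof. PL3 with `M = N`, `δ = R/N`, `Y = s + log N`, window `[Y, Y + 1 + log 2]`, `H y = hw b y` there and `0` elsewhere (`‖H‖ ≤ 2` for `Y ≥ 1`), `s0 = s`. For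
`x ∈ [0, 1]`, `n ∈ (N, N + R]`: `x + s + log n ∈ [Y, Y + 1 + log 2]` and `H (x + (s + log n)) = Fp b s x n - Mp s x n`. `l = log N`, `T = N l^{A+1}` (`1/δ = N/R ≤ √N l^C ≤ T/4` for large `N`). For `|x| ≤ 2 T` FTL with `A' = 2 A + 5 + A`, `C' = A + C + 5` (all powers of `Y` and `l` are comparable,
`e^Y = e^s N`) gives `≤ D'/Y^{A'} ≤ (B/2)/(5 T²)`, for `|x| > 2 T` the whole window has `|η| ≥ |x|/2` and FTT gives `≤ C (√N l^C + e^Y) e^Y · 4/x² ≤ (B/2) /x² ≤ B/(T² + x²)`, with `B = C'' (T²/l^{A'} + N²)`. Result `C δ B R/T = C R² (B/(N T)) ≤ C R² (l^{A+1}/l^{A'} + 1/l^{A+1}) C''`. -/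
def S_SW : Prop := ∀ (b : ℤ) (s : ℝ) (A C : ℕ), ∃ (D : ℝ) (N0 : ℕ), 0 ≤ D ∧ 2 ≤ N0 ∧ ∀ N R : ℕ, N0 ≤ N → √(N : ℝ) ≤ R * Real.log N ^ C →
  R ≤ N → ∀ g : ℕ → ℂ, (∀ n, ‖g n‖ ≤ 1) →
  ∫⁻ x in Set.Icc (0 : ℝ) 1, ‖∑ n ∈ Ioc N (N + R), g n * (Fp b s x n - Mp s x n)‖ₑ ^ 2 ≤ ENNReal.ofReal (D * R ^ 2 / Real.log N ^ A)

/-- the number of the `j ∈ W n` for which all `⌊α_i u_i(n, j)⌋ + b_i` are primes -/
noncomputable def cntG {k : ℕ} (u : Fin k → ℕ → ℕ → ℕ) (W : ℕ → Finset ℕ) (b : Fin k → ℤ) (α : Fin k → ℝ) (n : ℕ) : ℕ :=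
  #((W n).filter fun j : ℕ => ∀ i, (⌊α i * (u i n j : ℝ)⌋ + b i).toNat.Prime)

/-- the expected number -/
noncomputable def mainG {k : ℕ} (u : Fin k → ℕ → ℕ → ℕ) (W : ℕ → Finset ℕ) (α : Fin k → ℝ) (n : ℕ) : ℝ :=
  ∑ j ∈ W n, ∏ i, 1 / Real.log (α i * u i n j)

/-- the windows: injective maps `u_i(n, ·)` from `W n` into `(M n, M n + R n]` -/
def Win {k : ℕ} (u : Fin k → ℕ → ℕ → ℕ) (M R : ℕ → ℕ) (W : ℕ → Finset ℕ) (C : ℕ) : Prop :=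
  ∃ n0 : ℕ, ∀ n, n0 ≤ n → (W n).Nonempty → n ≤ M n ∧ (M n : ℝ) ≤ (n : ℝ) ^ C ∧ √(M n : ℝ) ≤ R n * Real.log n ^ C ∧ R n ≤ M n ∧
    ∀ i, Set.InjOn (u i n) (W n) ∧ ∀ j ∈ W n, u i n j ∈ Ioc (M n) (M n + R n)

/-- **GEN** (`S_SW → S_PRD → S_EX → S_GEN`; adapt `Pool/Agent/N798/W/Fin.lean`, lemmas `oneW`, `meanSqW`, `ae_GaW`, first half of `finW`; `prd`, `ex` are `Pool.Agent.N999.HS.prd`, `Pool.Agent.N280.HS.ex`, `cu` is `Pool.Agent.N262.T.cu`). Proof. `oneW`: for `n ≥ n1`, `W n` nonempty (else the sum is empty), `‖w‖ ≤ 1`: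
`∑_{j ∈ W n} w_j (Fp b s x (u j) - Mp s x (u j)) = ∑_{v ∈ Ioc (M n) (M n + R n)} g_v (Fp b s x v - Mp s x v)`, `g_v = w_j` if `v = u j`, `0` if there is no such `j` (injectivity), so SW (for `M n`, `R n`; `log n ≤ log (M n) ≤ C log n`) gives `≤ D R_n²/(log n)^A`. `S_PRD` for the product (`‖Mp‖ ≤ 1` as
`log (e^{s+x} v) ≥ 1` for large `n`). `S_EX` for `g ω n = (n/R_n) (deviation)` (and `0` if `W n` is empty or `n < n1`): almost surely, for all `L`, the set of the `n` with `R_n/(log n)^L < |deviation|` is thin; `cu` gives almost every `α` in the positive orthant (`al s k ω i = e^{s_i + ω_i}`); countably many `b`. -/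
def S_GEN : Prop := ∀ (k : ℕ) (u : Fin k → ℕ → ℕ → ℕ) (M R : ℕ → ℕ) (W : ℕ → Finset ℕ) (C : ℕ), Win u M R W C →
  ∀ᵐ α : Fin k → ℝ, (∀ i, 0 < α i) → ∀ b : Fin k → ℤ, ∀ L : ℕ,
    Thin fun n => (R n : ℝ) / Real.log n ^ L < |(cntG u W b α n : ℝ) - mainG u W α n|

end Pool.Agent.L7h88.MW
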