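import Pool.Agent.L7h88.MW.Stm
import Pool.Agent.L7h88.TS.Stm

/-! # Project MW (helper88): inputs of the two applications -/

set_option autoImplicit false

namespace Pool.Agent.L7h88.MW

open Finset MeasureTheory Filter Topology
open scoped ENNReal
open Pool.Agent.H376R2.MR (er)
open Pool.Agent.Y957.VK (lamw)
open Pool.Agent.L7h88.TS (Kq)

/-! ### MP_61a569_nt -/

/-- the `m`-th prime, `p 1 = 2` -/
noncomputable def pp (m : ℕ) : ℕ := Nat.nth Nat.Prime (m - 1)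

/-- the primes `q` with `√n < n + 1 - 2 q ≤ 2 √n` which are values `q(n, k)` for at least `√n/(log n)^5` of the `k` -/
noncomputable def Gq (n : ℕ) : Finset ℕ := by
  classical
  exact (Icc 1 n).filter (fun q : ℕ => q.Prime ∧ Nat.sqrt n + 2 * q < n + 1 ∧ n + 1 ≤ 2 * Nat.sqrt n + 2 * q ∧
    √(n : ℝ) / Real.log n ^ 5 ≤ ((Kq n q).card : ℝ))

open Classical in
/-- **G1** (`Pool.Agent.L7h88.TS.S_FIN1 → Pool.Agent.L7h88.TS.S_PRW → S_G1`; compare `Pool/Agent/L7h50/TS/Fin2.lean`). Proof. For `n` outside of the exceptional sets of FIN1 (`D = 1`, `A + 2`) and PRW: `y = Nat.sqrt n` satisfies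
`√n/2 ≤ y ≤ √n log n` for large `n`, at least `c √n/log n` primes `q ≡ 1 (mod 3)` of the range (odd, `Mod3 n q`), and for all but `y/(log n)^{A+2}` of the odd `q` with `Mod3 n q` of the range `#Kq n q ≥ n/(y (log n)^5) ≥ √n/(log n)^5`. -/
def S_G1 : Prop := ∃ c : ℝ, 0 < c ∧ ∀ A : ℕ, ∃ X₀ : ℕ, ∀ X : ℕ, X₀ ≤ X →
  (((Icc 1 X).filter (fun n : ℕ => n % 2 = 1 ∧ ((Gq n).card : ℝ) < c * √(n : ℝ) / Real.log n)).card : ℝ) ≤ X / Real.log X ^ A

/-- the ends of the range of `q` -/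
def lo (n : ℕ) : ℕ := (n + 1) / 2 - Nat.sqrt n - 1

/-- the ends of the range of `q` -/
def hi (n : ℕ) : ℕ := (n + 1) / 2

open Classical in
/-- **G2** (long ranges of primes are rare). Proof. `∑_{n ≤ X} (pp (hi n) - pp (lo n)) = ∑_j (pp (j+1) - pp j) #{n ≤ X : lo n ≤ j < hi n} ≤ (4 √X + 8) pp (X + 1) ≤ C X^{3/2} log X` (Chebyshev: `pp m ≤ C m log m`; the `n` with `lo n ≤ j < hi n`
satisfy `2 j < n + 1 ≤ 2 j + 2 √n + 5`). The `n ≤ X/(log X)^{K+1}` are few, for the others the threshold is `≥ √X (log X)^{-(K+1)/2} (log X/2)^{2K+6}`; Markov. -/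
def S_G2 : Prop := ∀ K : ℕ, ∃ X₀ : ℕ, ∀ X : ℕ, X₀ ≤ X →
  (((Icc 1 X).filter (fun n : ℕ => √(n : ℝ) * Real.log n ^ (2 * K + 6) < (pp (hi n) : ℝ) - pp (lo n))).card : ℝ) ≤
    X / Real.log X ^ K

/-! ### MP_e94e4b_nt -/

open Classical in
/-- **PN1** (`S_MVT → S_LL → S_PN1`; primes in almost all windows on the logarithmic scale). Proof. Let `s = Ioc N ⌊e² N⌋ ⊂ Ioc N (16 N)` and `f(y) = ∑_{n ∈ s, y < log n ≤ y + δ} lamw n = ∑_{n ∈ s} lamw n 1_{[0, δ)}(…)`; for `log N ≤ y ≤ log N + 1` the sum in the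
statement is `f(y)`. Plancherel (`Pool.Agent.TH794.QD.plancherel`, see its use in `Pool/Agent/N798/H/PL2.lean`): `∫ |f|² = (1/2π) ∫ |DS lamw s η|² |β(η)|² dη`, `|β(η)| = |∫_0^δ e^{-iηv} dv| ≤ min(δ, 2/|η|)`. Cut the line into `J_k = [k/δ, (k+1)/δ]`, `k ∈ ℤ`: `|β|² ≤ δ² min (1, 4/k'^2)`,
`k' = min |k| |k+1|`. If `|k|/δ ≤ N (log N)^{C+1}`: `∫_{J_k} |DS lamw|² ≤ D N²/(log N)^A` by LL (`1/δ ≤ √N (log N)^C`), otherwise `≤ C' (1/δ + 16 N) N (log N)²` by MVT, and `∑_{|k| > δ N (log N)^{C+1}} 4/k'^2 ≤ 16/(δ N (log N)^{C+1}) ≤ N^{-1/3}`. -/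
def S_PN1 : Prop := ∀ A C : ℕ, ∃ (D : ℝ) (N0 : ℕ), 0 ≤ D ∧ 2 ≤ N0 ∧ ∀ (N : ℕ) (δ : ℝ), N0 ≤ N → 0 < δ → δ ≤ 1 → 1 ≤ δ * √(N : ℝ) * Real.log N ^ C →
  ∫ y in (Real.log N)..(Real.log N + 1), ‖∑ n ∈ (Icc 1 ⌊Real.exp (y + δ)⌋₊).filter (fun n : ℕ => y < Real.log n), lamw n‖ ^ 2 ≤
    D * δ ^ 2 * N ^ 2 / Real.log N ^ A

/-- the number of primes in `(x, y]` -/
noncomputable def pc (x y : ℝ) : ℕ := ((Ioc ⌊x⌋₊ ⌊y⌋₊).filter Nat.Prime).card

open Classical in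
/-- **PN2** (`S_PN1 → S_PN2`; the prime number theorem between almost all consecutive squares, in all subintervals at once). Proof. `l = log X`. It is enough to treat `N ∈ (X', 1.2 X']`, `X' ≥ X/l^{A+1}` (geometric cover), and the `u = i/m`, `v = j/m`, `m = ⌈l^{A+2}⌉` (monotonicity in `u`, `v`;
differences of the main term `≤ N/(m log N)`), so by the triangle inequality it suffices to bound `S_N(t) = ∑_{N² < n ≤ N² + 2 t N} lamw n` for `t = i/m` by `N/l^{A+2}` (then partial summation: `1/log n` varies by `≤ 3/(N l)` relative over the interval; the proper prime powers up to `4 X²` between the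
squares are at most `C X l` in number over all `N`, so at most `N/l^{A+3}` of them are in the interval for all but few `N`; powers with exponent `2` do not occur inside).
Let `δ = 1/(X' l^B)`. For `a = N²`, `b = N² + 2 t N`: `∑_{a < n ≤ b} lamw n = (1/δ) ∫_{log a}^{log b} F(y) dy + O(edges)`, `F(y) = ∑_{y < log n ≤ y + δ} lamw n` (every `n` is counted for a set of `y` of measure `δ` unless `log n` is within `δ` of `log a` or `log b`), the edges are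
`≤ ∑ |lamw n|` over two intervals of length `≤ 2 δ b`, `≤ C δ X'^2 ` by Brun-Titchmarsh (or trivially `≤ (2 δ b + 1) · 2 log (4 X'^2) ≤ C X' l^{1-B}`, which is enough). The intervals `(log N², log (N+1)²)` are disjoint, so for fixed `t`: `∑_N |S_N(t)| ≤ (1/δ) ∫ |F| + X' · C X' l^{1-B}
≤ (1/δ)(∫ |F|²)^{1/2} + … ≤ C X'^2 l^{-A'/2} + C X'^2 l^{1-B}` by PN1 (`N := X'^2`, `C := B + 1`; `log` of the range `(X'^2, (1.2 X' + 1)^2]` is at most `1/2`). Sum over the `m + 1` values `t`, Markov. -/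
def S_PN2 : Prop := ∀ A : ℕ, ∃ X₀ : ℕ, ∀ X : ℕ, X₀ ≤ X →
  (((Icc 2 X).filter (fun N : ℕ => ¬ ∀ u v : ℝ, 0 ≤ u → u ≤ v → v ≤ 1 →
    |(pc (N ^ 2 + 2 * u * N) (N ^ 2 + 2 * v * N) : ℝ) - (v - u) * N / Real.log N| ≤ N / Real.log N ^ A)).card : ℝ) ≤ X / Real.log X ^ A

end Pool.Agent.L7h88.MW
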