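import Pool.Agent.L7h88.MW.Stm2

/-! # Project MW: thin sets, facts about primes -/

set_option autoImplicit false

namespace Pool.Agent.L7h88.MW

open Finset MeasureTheory Filter Topology
open Pool.Agent.N798.HS (Thin thin_mono)

open Classical in
/-- a set is thin if for every `K` it is, up to finitely many members, contained in the union of a thin set and of a set with at
most `2 X / (log X)^(K+1)` members up to `X` -/
theorem thin_of {E : ℕ → Prop} (h : ∀ K : ℕ, ∃ E0 E1 : ℕ → Prop, Thin E0 ∧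
    (∀ᶠ X : ℕ in atTop, (#((Icc 1 X).filter E1) : ℝ) ≤ 2 * X / Real.log X ^ (K + 1)) ∧
    ∀ᶠ n in atTop, E n → E0 n ∨ E1 n) : Thin E := by
  intro K
  obtain ⟨E0, E1, h0, h1, h2⟩ := h K
  have hlog : Tendsto (fun n : ℕ => Real.log (n : ℝ)) atTop atTop :=
    Real.tendsto_log_atTop.comp tendsto_natCast_atTop_atTop
  have h3 : Thin (fun n => E n ∧ ¬ E1 n) := by
    refine thin_mono ?_ h0
    filter_upwards [h2] with n hn hE
    exact (hn hE.1).resolve_right hE.2
  have h4 : Tendsto (fun N : ℕ => (#((Icc 1 N).filter fun n => E n ∧ ¬ E1 n) : ℝ) * (Real.log N) ^ K / N) atTop (𝓝 0) := by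
    convert h3 K
  have h5 : Tendsto (fun X : ℕ => 2 / Real.log (X : ℝ)) atTop (𝓝 0) := hlog.const_div_atTop 2
  have h6 := h4.add h5
  rw [add_zero] at h6
  refine squeeze_zero' ?_ ?_ h6
  · filter_upwards [eventually_ge_atTop 1] with X hX
    have : 0 ≤ Real.log (X : ℝ) := Real.log_nonneg (by exact_mod_cast hX)
    positivity
  · filter_upwards [h1, hlog.eventually_ge_atTop 1, eventually_ge_atTop 1] with X hX hl hX1
    have hX0 : (0 : ℝ) < X := by exact_mod_cast hX1
    have hl0 : 0 < Real.log (X : ℝ) := by linarith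
    have h7 : #((Icc 1 X).filter E) ≤ #((Icc 1 X).filter fun n => E n ∧ ¬ E1 n) + #((Icc 1 X).filter E1) := by
      refine (card_le_card ?_).trans (card_union_le _ _)
      intro n hn
      rw [mem_filter] at hn
      rw [mem_union, mem_filter, mem_filter]
      by_cases h8 : E1 n
      · exact Or.inr ⟨hn.1, h8⟩
      · exact Or.inl ⟨hn.1, hn.2, h8⟩
    have h8 : (#((Icc 1 X).filter E) : ℝ) ≤ #((Icc 1 X).filter fun n => E n ∧ ¬ E1 n) + 2 * X / Real.log X ^ (K + 1) := by
      have : (#((Icc 1 X).filter E) : ℝ) ≤ #((Icc 1 X).filter fun n => E n ∧ ¬ E1 n) + #((Icc 1 X).filter E1) := by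
        exact_mod_cast h7
      linarith
    have h9 : 0 ≤ Real.log (X : ℝ) ^ K / X := by positivity
    calc (#((Icc 1 X).filter E) : ℝ) * Real.log X ^ K / X = #((Icc 1 X).filter E) * (Real.log X ^ K / X) := by ring
      _ ≤ (#((Icc 1 X).filter fun n => E n ∧ ¬ E1 n) + 2 * X / Real.log X ^ (K + 1)) * (Real.log X ^ K / X) :=
          mul_le_mul_of_nonneg_right h8 h9
      _ = _ := by
          rw [pow_succ]
          field_simp

/-! ### the primes -/

lemma pp_mono {a b : ℕ} (ha : 1 ≤ a) (hab : a < b) : pp a < pp b := by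
  unfold pp
  exact Nat.nth_strictMono Nat.infinite_setOf_prime (by omega)

lemma pp_step {m : ℕ} (hm : 2 ≤ m) : pp m + 2 ≤ pp (m + 1) := by
  have h1 : pp m < pp (m + 1) := pp_mono (by omega) (by omega)
  have p1 : (pp m).Prime := Nat.prime_nth_prime _
  have p2 : (pp (m + 1)).Prime := Nat.prime_nth_prime _
  have h2 : pp 1 < pp m := pp_mono le_rfl (by omega)
  have h3 : pp 1 = 2 := by
    unfold pp
    exact Nat.nth_prime_zero_eq_two
  have o1 := p1.eq_two_or_odd
  have o2 := p2.eq_two_or_odd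
  omega

lemma pp_add {m : ℕ} (hm : 2 ≤ m) (d : ℕ) : pp m + 2 * d ≤ pp (m + d) := by
  induction d with
  | zero => simp
  | succ d ih =>
    have := pp_step (m := m + d) (by omega)
    have e : m + (d + 1) = m + d + 1 := by ring
    rw [e]
    omega

/-- `p_m ≥ 15 m / 4 - 200` -/
lemma pp_lower (m : ℕ) (hm : 1 ≤ m) : 15 * m ≤ 4 * pp m + 800 := by
  have h1 := Nat.primeCounting'_add_le (a := 30) (k := 31) (by norm_num) (by norm_num) (pp m)
  have h2 : Nat.primeCounting' (pp m) = m - 1 := by
    unfold pp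
    exact Nat.primeCounting'_nth_eq _
  have h3 : Nat.primeCounting' (pp m) ≤ Nat.primeCounting' (31 + pp m) := Nat.monotone_primeCounting' (by omega)
  have h4 : Nat.totient 30 = 8 := by decide
  have h5 : Nat.primeCounting' 31 ≤ 31 := by
    unfold Nat.primeCounting'
    exact Nat.count_le _
  rw [h4] at h1
  have h6 : 30 * (pp m / 30) ≤ pp m := Nat.mul_div_le _ _
  omega

lemma pp_ge (m : ℕ) (hm : 1 ≤ m) : m ≤ pp m := by
  unfold pp
  have := Nat.le_nth (p := Nat.Prime) (n := m - 1) (fun h => (Nat.infinite_setOf_prime h).elim)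
  have h1 := (Nat.prime_nth_prime (m - 1)).two_le
  rcases Nat.lt_or_ge m 2 with h | h
  · omega
  · have h2 : Nat.nth Nat.Prime 0 < Nat.nth Nat.Prime (m - 1) :=
      Nat.nth_strictMono Nat.infinite_setOf_prime (by omega)
    have h3 := Nat.add_two_le_nth_prime (m - 1)
    omega

end Pool.Agent.L7h88.MW
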